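import Mathlib
import Pool.Agent.H277R2.OM3

/-!
# Kneser's conjecture (Lovász's theorem) from Tucker's lemma
-/

set_option autoImplicit false

namespace Pool.Agent.Q294.SC

open Finset Pool.Agent.H277R2.OM

theorem univ_om {n : ℕ} : IsOM (Set.univ : Set (Fin n → SignType)) := by
  refine ⟨trivial, fun _ _ => trivial, fun _ _ _ _ => trivial, ?_⟩
  intro X _ Y _ e he1 he2
  refine ⟨fun f => if f = e then 0 else cmp X Y f, trivial, by simp, ?_⟩
  intro f hf
  by_cases h : f = e
  · subst h
    rcases hf with h0 | h0
    · exact absurd h0 he1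
    · exact absurd he2 h0
  · simp [h]

/-- octahedral Tucker lemma -/
theorem tucker_univ {n : ℕ} (idx : (Fin n → SignType) → ℕ) (s : (Fin n → SignType) → ZMod 2)
    (hidx : ∀ X, X ≠ 0 → idx (-X) = idx X) (hs : ∀ X, X ≠ 0 → s (-X) = 1 + s X)
    (hc : ∀ X Y, X ≠ 0 → Y ≠ 0 → Le X Y → idx X = idx Y → s X = s Y)
    (I : Finset ℕ) (hI : ∀ X, X ≠ 0 → idx X ∈ I) : n ≤ I.card := by
  classical
  rcases Nat.eq_zero_or_pos n with hn | hn
  · omega
  set e : ℕ → Fin n := fun j => if h : j < n then ⟨j, h⟩ else ⟨0, hn⟩ with he
  refine tucker (L := Set.univ) univ_om e n hn ?_ ?_ idx s (fun X _ h => hidx X h)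
    (fun X _ h => hs X h) (fun X _ Y _ h1 h2 h3 h4 => hc X Y h1 h2 h3 h4) I (fun X _ h => hI X h)
  · intro j hj
    refine ⟨fun f => if f = e j then 1 else 0, ⟨trivial, ?_⟩, by simp⟩
    intro i hi
    have : e i ≠ e j := by
      simp only [he, dif_pos hj, dif_pos (lt_trans hi hj)]
      intro h
      have := congrArg Fin.val h
      simp at this
      omega
    simp [this]
  · rintro X ⟨_, hX⟩
    funext i
    have := hX i.1 i.2
    simp only [he, dif_pos i.2] at this
    exact this

section

variable {n q : ℕ}

def pos (X : Fin n → SignType) : Finset (Fin n) := univ.filter (fun i => X i = 1)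
def neg (X : Fin n → SignType) : Finset (Fin n) := univ.filter (fun i => X i = -1)

theorem pos_neg (X : Fin n → SignType) : pos (-X) = neg X := by
  unfold pos neg
  ext i
  simp only [mem_filter, mem_univ, true_and, Pi.neg_apply]
  generalize X i = a
  revert a; decide

theorem neg_neg' (X : Fin n → SignType) : neg (-X) = pos X := by
  unfold pos neg
  ext i
  simp only [mem_filter, mem_univ, true_and, Pi.neg_apply]
  generalize X i = a
  revert a; decide

theorem disj (X : Fin n → SignType) : Disjoint (pos X) (neg X) := by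
  rw [Finset.disjoint_left]
  intro i h1 h2
  simp only [pos, neg, mem_filter, mem_univ, true_and] at h1 h2
  rw [h1] at h2
  exact absurd h2 (by decide)

theorem pos_mono {X Y : Fin n → SignType} (h : Le X Y) : pos X ⊆ pos Y := by
  intro i hi
  simp only [pos, mem_filter, mem_univ, true_and] at hi ⊢
  rw [h i (by rw [hi]; decide), hi]

theorem neg_mono {X Y : Fin n → SignType} (h : Le X Y) : neg X ⊆ neg Y := by
  intro i hi
  simp only [neg, mem_filter, mem_univ, true_and] at hi ⊢
  rw [h i (by rw [hi]; decide), hi]

theorem eq_of_card {X Y : Fin n → SignType} (h : Le X Y)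
    (hc : (pos Y).card + (neg Y).card ≤ (pos X).card + (neg X).card) : X = Y := by
  have h1 := card_le_card (pos_mono h)
  have h2 := card_le_card (neg_mono h)
  have h3 : pos X = pos Y := eq_of_subset_of_card_le (pos_mono h) (by omega)
  have h4 : neg X = neg Y := eq_of_subset_of_card_le (neg_mono h) (by omega)
  apply Le.antisymm h
  intro i hi
  rcases sg6 (Y i) with h0 | h0 | h0
  · exact absurd h0 hi
  · have : i ∈ pos X := by rw [h3]; simp [pos, h0]
    simp only [pos, mem_filter, mem_univ, true_and] at this
    rw [this, h0]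
  · have : i ∈ neg X := by rw [h4]; simp [neg, h0]
    simp only [neg, mem_filter, mem_univ, true_and] at this
    rw [this, h0]

theorem card_pos_of_ne {X : Fin n → SignType} (h : X ≠ 0) : 1 ≤ (pos X).card + (neg X).card := by
  by_contra hcon
  apply h
  have h1 : (pos X).card = 0 := by omega
  have h2 : (neg X).card = 0 := by omega
  rw [card_eq_zero] at h1 h2
  funext i
  rcases sg6 (X i) with h0 | h0 | h0
  · exact h0
  · have : i ∈ pos X := by simp [pos, h0]
    rw [h1] at this; simp at this
  · have : i ∈ neg X := by simp [neg, h0]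
    rw [h2] at this; simp at this

/-- `1 +` the largest colour of an `r`-subset, `0` if there are none -/
def mx (r : ℕ) (c : Finset (Fin n) → Fin q) (P : Finset (Fin n)) : ℕ :=
  (powersetCard r P).sup (fun A => (c A : ℕ) + 1)

theorem mx_mono {r : ℕ} {c : Finset (Fin n) → Fin q} {P Q : Finset (Fin n)} (h : P ⊆ Q) :
    mx r c P ≤ mx r c Q := Finset.sup_mono (powersetCard_mono h)

theorem mx_pos {r : ℕ} {c : Finset (Fin n) → Fin q} {P : Finset (Fin n)} (h : r ≤ P.card) :
    1 ≤ mx r c P := by
  obtain ⟨A, hA, hAc⟩ := exists_subset_card_eq h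
  have : A ∈ powersetCard r P := mem_powersetCard.2 ⟨hA, hAc⟩
  have h2 := Finset.le_sup (f := fun A => (c A : ℕ) + 1) this
  unfold mx
  omega

theorem mx_le {r : ℕ} {c : Finset (Fin n) → Fin q} {P : Finset (Fin n)} : mx r c P ≤ q := by
  unfold mx
  rw [Finset.sup_le_iff]
  intro A _
  have := (c A).2
  omega

theorem exists_mx {r : ℕ} {c : Finset (Fin n) → Fin q} {P : Finset (Fin n)} (h : 1 ≤ mx r c P) :
    ∃ A ⊆ P, A.card = r ∧ (c A : ℕ) + 1 = mx r c P := by
  have hne : (powersetCard r P).Nonempty := by
    rw [Finset.nonempty_iff_ne_empty]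
    intro h0
    unfold mx at h
    rw [h0] at h
    simp at h
  obtain ⟨A, hA, h2⟩ := Finset.exists_mem_eq_sup _ hne (fun A => (c A : ℕ) + 1)
  rw [mem_powersetCard] at hA
  exact ⟨A, hA.1, hA.2, h2.symm⟩

open Classical in
/-- **Kneser's conjecture** (Lovász). -/
theorem kneser_fin {r : ℕ} (hr : 1 ≤ r) (hn : 2 * r + q ≤ n + 1) (c : Finset (Fin n) → Fin q) :
    ∃ A B : Finset (Fin n), A.card = r ∧ B.card = r ∧ Disjoint A B ∧ c A = c B := by
  by_contra hcon
  push Not at hcon
  have key : ∀ P Q : Finset (Fin n), Disjoint P Q → 1 ≤ mx r c P → mx r c P ≠ mx r c Q := by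
    intro P Q hPQ h1 h2
    obtain ⟨A, hA, hAc, hA2⟩ := exists_mx h1
    rw [h2] at h1 hA2
    obtain ⟨B, hB, hBc, hB2⟩ := exists_mx h1
    refine hcon A B hAc hBc (Finset.disjoint_of_subset_left hA
      (Finset.disjoint_of_subset_right hB hPQ)) (Fin.ext ?_)
    omega
  set low : (Fin n → SignType) → Prop := fun X => (pos X).card + (neg X).card ≤ 2 * r - 2 with hlow
  set idx : (Fin n → SignType) → ℕ := fun X => if low X then (pos X).card + (neg X).card - 1
    else 2 * r - 2 + (max (mx r c (pos X)) (mx r c (neg X)) - 1) with hidx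
  set s : (Fin n → SignType) → ZMod 2 := fun X => if low X then
      (if ∃ i, X i = 1 ∧ ∀ j < i, X j = 0 then 0 else 1)
    else (if mx r c (neg X) < mx r c (pos X) then 0 else 1) with hs
  have hlowneg : ∀ X, low (-X) ↔ low X := by
    intro X
    simp only [hlow, pos_neg, neg_neg']
    rw [add_comm]
  have hhigh : ∀ X, ¬ low X → 1 ≤ max (mx r c (pos X)) (mx r c (neg X)) := by
    intro X hX
    simp only [hlow] at hX
    rcases le_or_gt r (pos X).card with h | h
    · exact le_trans (mx_pos h) (le_max_left _ _)
    · exact le_trans (mx_pos (by omega)) (le_max_right _ _)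
  have hne : ∀ X, ¬ low X → mx r c (pos X) ≠ mx r c (neg X) := by
    intro X hX h
    have h1 := hhigh X hX
    rw [← h, max_self] at h1
    exact key _ _ (disj X) h1 h
  have hmain := tucker_univ idx s ?_ ?_ ?_ (range (2 * r - 2 + q)) ?_
  · rw [card_range] at hmain
    omega
  · -- idx antipodal
    intro X _
    simp only [hidx, hlowneg, pos_neg, neg_neg']
    rw [add_comm (neg X).card, max_comm]
  · intro X hX
    simp only [hs, hlowneg, pos_neg, neg_neg']
    by_cases hl : low X
    · rw [if_pos hl, if_pos hl]
      -- first nonzero entry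
      have hex : ∃ i, X i ≠ 0 := by
        by_contra h
        push Not at h
        exact hX (funext h)
      obtain ⟨i, hi, hmin⟩ : ∃ i, X i ≠ 0 ∧ ∀ j < i, X j = 0 := by
        obtain ⟨i, hi, hmin⟩ := Finset.exists_minimal (s := univ.filter (fun i => X i ≠ 0))
          (by obtain ⟨i, hi⟩ := hex; exact ⟨i, by simp [hi]⟩)
        refine ⟨i, by simpa using hi, fun j hj => ?_⟩
        by_contra h0
        have := hmin (by simp [h0] : j ∈ univ.filter (fun i => X i ≠ 0)) hj.le
        exact absurd hj (not_lt.2 this)
      have huniq : ∀ j, X j ≠ 0 → (∀ k < j, X k = 0) → j = i := by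
        intro j hj hj2
        rcases lt_trichotomy j i with h | h | h
        · exact absurd (hmin j h) hj
        · exact h
        · exact absurd (hj2 i h) hi
      rcases sg6 (X i) with h0 | h0 | h0
      · exact absurd h0 hi
      · have e1 : ∃ i, X i = 1 ∧ ∀ j < i, X j = 0 := ⟨i, h0, hmin⟩
        have e2 : ¬ ∃ i, (-X) i = 1 ∧ ∀ j < i, (-X) j = 0 := by
          rintro ⟨j, hj, hj2⟩
          have h3 : X j = -1 := by
            rw [Pi.neg_apply] at hj
            revert hj; generalize X j = a; revert a; decide
          have : j = i := huniq j (by rw [h3]; decide) (by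
            intro k hk
            have := hj2 k hk
            rw [Pi.neg_apply] at this
            revert this; generalize X k = a; revert a; decide)
          rw [this, h0] at h3
          exact absurd h3 (by decide)
        rw [if_pos e1, if_neg e2]; decide
      · have e1 : ¬ ∃ i, X i = 1 ∧ ∀ j < i, X j = 0 := by
          rintro ⟨j, hj, hj2⟩
          have : j = i := huniq j (by rw [hj]; decide) hj2
          rw [this, h0] at hj
          exact absurd hj (by decide)
        have e2 : ∃ i, (-X) i = 1 ∧ ∀ j < i, (-X) j = 0 := by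
          refine ⟨i, ?_, ?_⟩
          · rw [Pi.neg_apply, h0]; decide
          · intro j hj
            rw [Pi.neg_apply, hmin j hj]; decide
        rw [if_neg e1, if_pos e2]; decide
    · rw [if_neg hl, if_neg hl]
      have h1 := hne X hl
      rcases lt_or_gt_of_ne h1 with h | h
      · rw [if_pos h, if_neg (not_lt.2 h.le)]; decide
      · rw [if_neg (not_lt.2 h.le), if_pos h]; decide
  · intro X Y hX hY hXY hid
    by_cases hlX : low X
    · have hcX := card_pos_of_ne hX
      by_cases hlY : low Y
      · have hcY := card_pos_of_ne hY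
        have h1 : idx X = (pos X).card + (neg X).card - 1 := by simp only [hidx]; rw [if_pos hlX]
        have h2 : idx Y = (pos Y).card + (neg Y).card - 1 := by simp only [hidx]; rw [if_pos hlY]
        rw [h1, h2] at hid
        rw [eq_of_card hXY (by omega)]
      · exfalso
        have h1 : idx X = (pos X).card + (neg X).card - 1 := by simp only [hidx]; rw [if_pos hlX]
        have h2 : idx Y = 2 * r - 2 + (max (mx r c (pos Y)) (mx r c (neg Y)) - 1) := by
          simp only [hidx]; rw [if_neg hlY]
        have h3 : (pos X).card + (neg X).card ≤ 2 * r - 2 := hlX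
        rw [h1, h2] at hid
        omega
    · have hlY : ¬ low Y := by
        intro h
        apply hlX
        have h1 := card_le_card (pos_mono hXY)
        have h2 := card_le_card (neg_mono hXY)
        simp only [hlow] at h ⊢
        omega
      have h1 : idx X = 2 * r - 2 + (max (mx r c (pos X)) (mx r c (neg X)) - 1) := by
        simp only [hidx]; rw [if_neg hlX]
      have h2 : idx Y = 2 * r - 2 + (max (mx r c (pos Y)) (mx r c (neg Y)) - 1) := by
        simp only [hidx]; rw [if_neg hlY]
      have hX1 := hhigh X hlX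
      have hY1 := hhigh Y hlY
      have hX2 := hne X hlX
      have hY2 := hne Y hlY
      have hp : mx r c (pos X) ≤ mx r c (pos Y) := mx_mono (pos_mono hXY)
      have hn' : mx r c (neg X) ≤ mx r c (neg Y) := mx_mono (neg_mono hXY)
      rw [h1, h2] at hid
      simp only [hs]
      rw [if_neg hlX, if_neg hlY]
      by_cases h3 : mx r c (neg X) < mx r c (pos X)
      · have : mx r c (neg Y) < mx r c (pos Y) := by omega
        rw [if_pos h3, if_pos this]
      · have : ¬ mx r c (neg Y) < mx r c (pos Y) := by omega
        rw [if_neg h3, if_neg this]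
  · intro X hX
    rw [mem_range]
    by_cases hl : low X
    · have h1 : idx X = (pos X).card + (neg X).card - 1 := by simp only [hidx]; rw [if_pos hl]
      have h2 := card_pos_of_ne hX
      have h3 : (pos X).card + (neg X).card ≤ 2 * r - 2 := hl
      rw [h1]
      omega
    · have h1 : idx X = 2 * r - 2 + (max (mx r c (pos X)) (mx r c (neg X)) - 1) := by
        simp only [hidx]; rw [if_neg hl]
      have h2 := hhigh X hl
      have h3 : mx r c (pos X) ≤ q := mx_le
      have h4 : mx r c (neg X) ≤ q := mx_le
      rw [h1]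
      omega

end

/-- Kneser's conjecture for subsets of a finite set. -/
theorem kneser {V : Type*} [DecidableEq V] {q r : ℕ} (hr : 1 ≤ r) (S : Finset V)
    (hn : 2 * r + q ≤ S.card + 1) (c : Finset V → Fin q) :
    ∃ A B : Finset V, A ⊆ S ∧ B ⊆ S ∧ A.card = r ∧ B.card = r ∧ Disjoint A B ∧ c A = c B := by
  let f : Fin S.card ↪ V := (S.equivFin.symm.toEmbedding).trans (Function.Embedding.subtype _)
  obtain ⟨A, B, hA, hB, hAB, hcol⟩ := kneser_fin (n := S.card) hr hn (fun T => c (T.map f))
  refine ⟨A.map f, B.map f, ?_, ?_, by rw [card_map, hA], by rw [card_map, hB],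
    (disjoint_map f).2 hAB, hcol⟩
  · intro x hx
    rw [mem_map] at hx
    obtain ⟨i, _, rfl⟩ := hx
    exact (S.equivFin.symm i).2
  · intro x hx
    rw [mem_map] at hx
    obtain ⟨i, _, rfl⟩ := hx
    exact (S.equivFin.symm i).2

end Pool.Agent.Q294.SC
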