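import Pool.Agent.Q294.SC.Kneser

/-!
# The Alon–Frankl–Lovász theorem for powers of two
-/

set_option autoImplicit false

namespace Pool.Agent.Q294.SC

open Finset

/-- `M` is a family of pairwise disjoint `r`-subsets of `S` of colour `j` -/
structure IsM {V κ : Type*} [DecidableEq V] (S : Finset V) (r : ℕ) (c : Finset V → κ) (j : κ)
    (M : Finset (Finset V)) : Prop where
  sub : ∀ e ∈ M, e ⊆ S
  card : ∀ e ∈ M, e.card = r
  col : ∀ e ∈ M, c e = j
  disj : ∀ e ∈ M, ∀ f ∈ M, e ≠ f → Disjoint e f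

theorem afl_pow {q : ℕ} (hq : 1 ≤ q) (k : ℕ) :
    ∀ {V : Type} [DecidableEq V] (r : ℕ), 1 ≤ r → ∀ S : Finset V,
      r * 2 ^ k + (q - 1) * (2 ^ k - 1) ≤ S.card → ∀ c : Finset V → Fin q,
      ∃ (j : Fin q) (M : Finset (Finset V)), M.card = 2 ^ k ∧ IsM S r c j M := by
  induction k with
  | zero =>
    intro V _ r hr S hS c
    obtain ⟨A, hA, hAc⟩ := exists_subset_card_eq (show r ≤ S.card by simpa using hS)
    refine ⟨c A, {A}, by simp, ⟨?_, ?_, ?_, ?_⟩⟩
    · simpa using hA
    · simpa using hAc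
    · simp
    · intro e he f hf hne
      rw [mem_singleton] at he hf
      exact absurd (he.trans hf.symm) hne
  | succ k ih =>
    intro V _ r hr S hS c
    classical
    set R := r * 2 ^ k + (q - 1) * (2 ^ k - 1) with hR
    have hk : 1 ≤ 2 ^ k := Nat.one_le_two_pow
    have hR1 : 1 ≤ R := by
      have : 1 * 1 ≤ r * 2 ^ k := Nat.mul_le_mul hr hk
      omega
    have hbig : 2 * R + q ≤ S.card + 1 := by
      have h1 : r * 2 ^ (k + 1) + (q - 1) * (2 ^ (k + 1) - 1) = 2 * R + (q - 1) := by
        obtain ⟨m, hm⟩ : ∃ m, 2 ^ k = m + 1 := ⟨2 ^ k - 1, by omega⟩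
        rw [hR, pow_succ, hm]
        have e1 : (m + 1) * 2 - 1 = 2 * m + 1 := by omega
        rw [e1, Nat.add_sub_cancel]
        ring
      omega
    -- colour of an `R`-set
    have hcol : ∀ A : Finset V, A.card = R →
        ∃ (j : Fin q) (M : Finset (Finset V)), M.card = 2 ^ k ∧ IsM A r c j M := by
      intro A hA
      exact ih r hr A (by rw [hA]) c
    let c' : Finset V → Fin q := fun A => if h : A.card = R then (hcol A h).choose else ⟨0, hq⟩
    obtain ⟨A, B, hAS, hBS, hA, hB, hAB, hc⟩ := kneser hR1 S hbig c'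
    have hcA : c' A = (hcol A hA).choose := dif_pos hA
    have hcB : c' B = (hcol B hB).choose := dif_pos hB
    obtain ⟨MA, hMA, h1⟩ := (hcol A hA).choose_spec
    obtain ⟨MB, hMB, h2⟩ := (hcol B hB).choose_spec
    rw [← hcB, ← hc] at h2
    rw [← hcA] at h1
    have hdisj : ∀ e ∈ MA, ∀ f ∈ MB, Disjoint e f := fun e he f hf =>
      Finset.disjoint_of_subset_left (h1.sub e he) (Finset.disjoint_of_subset_right (h2.sub f hf) hAB)
    have hMd : Disjoint MA MB := by
      rw [Finset.disjoint_left]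
      intro e he hf
      have := hdisj e he e hf
      rw [Finset.disjoint_self_iff_empty] at this
      have h3 := h1.card e he
      rw [this, card_empty] at h3
      omega
    refine ⟨c' A, MA ∪ MB, ?_, ⟨?_, ?_, ?_, ?_⟩⟩
    · rw [card_union_of_disjoint hMd, hMA, hMB, pow_succ]; ring
    · intro e he
      rcases mem_union.1 he with h | h
      · exact (h1.sub e h).trans hAS
      · exact (h2.sub e h).trans hBS
    · intro e he
      rcases mem_union.1 he with h | h
      · exact h1.card e h
      · exact h2.card e h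
    · intro e he
      rcases mem_union.1 he with h | h
      · exact h1.col e h
      · exact h2.col e h
    · intro e he f hf hne
      rcases mem_union.1 he with h | h <;> rcases mem_union.1 hf with h' | h'
      · exact h1.disj e h f h' hne
      · exact hdisj e h f h'
      · exact (hdisj f h' e h).symm
      · exact h2.disj e h f h' hne

/-- different sizes for the colours -/
theorem afl_gen {q : ℕ} (hq : 1 ≤ q) (k r n : ℕ) (hr : 1 ≤ r) (t : Fin q → ℕ) (ht1 : ∀ j, 1 ≤ t j)
    (ht : ∀ j, t j ≤ 2 ^ k) (hn : (r - 1) * 2 ^ k + ∑ j, (t j - 1) + 1 ≤ n)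
    (c : Finset (Fin n) → Fin q) :
    ∃ (j : Fin q) (M : Finset (Finset (Fin n))), M.card = t j ∧ IsM univ r c j M := by
  classical
  let D := Σ j : Fin q, Fin (2 ^ k - t j)
  let V := Fin n ⊕ D
  let dm : Finset V → Prop := fun e => ∃ d : D, Sum.inr d ∈ e
  let c' : Finset V → Fin q := fun e => if h : dm e then (h.choose).1 else
    c (univ.filter (fun i => Sum.inl i ∈ e))
  have hcard : (univ : Finset V).card = n + ∑ j, (2 ^ k - t j) := by
    rw [card_univ, Fintype.card_sum, Fintype.card_fin, Fintype.card_sigma]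
    simp
  have hk : 1 ≤ 2 ^ k := Nat.one_le_two_pow
  have hbig : r * 2 ^ k + (q - 1) * (2 ^ k - 1) ≤ (univ : Finset V).card := by
    rw [hcard]
    have h1 : ∑ j, (t j - 1) + ∑ j, (2 ^ k - t j) = q * (2 ^ k - 1) := by
      rw [← sum_add_distrib]
      rw [sum_congr rfl (g := fun _ => 2 ^ k - 1) (fun j _ => by
        have := ht1 j; have := ht j; omega)]
      simp
    obtain ⟨m, hm⟩ : ∃ m, 2 ^ k = m + 1 := ⟨2 ^ k - 1, by omega⟩
    obtain ⟨q', rfl⟩ : ∃ q', q = q' + 1 := ⟨q - 1, by omega⟩
    obtain ⟨r', rfl⟩ : ∃ r', r = r' + 1 := ⟨r - 1, by omega⟩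
    rw [hm] at h1 hn ⊢
    simp only [Nat.add_sub_cancel] at h1 hn ⊢
    have h2 : (r' + 1) * (m + 1) + q' * m = r' * (m + 1) + 1 + (q' + 1) * m := by ring
    rw [h2, ← h1]
    omega
  obtain ⟨j, M, hM, hI⟩ := afl_pow hq k r hr (univ : Finset V) hbig c'
  -- edges without dummy elements
  set M0 := M.filter (fun e => ¬ dm e) with hM0
  have hM1 : (M.filter dm).card ≤ 2 ^ k - t j := by
    have hn0 : 0 < n := by omega
    haveI : Nonempty V := ⟨Sum.inl ⟨0, hn0⟩⟩
    let T : Finset V := univ.image (fun x : Fin (2 ^ k - t j) => Sum.inr ⟨j, x⟩)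
    have hT : T.card ≤ 2 ^ k - t j := by
      refine card_image_le.trans ?_
      simp
    have hex : ∀ e ∈ M.filter dm, ∃ v : V, v ∈ T ∧ v ∈ e := by
      intro e he
      rw [mem_filter] at he
      have h1 : c' e = (he.2.choose).1 := dif_pos he.2
      have h2 := hI.col e he.1
      have h3 := he.2.choose_spec
      rw [h1] at h2
      generalize he.2.choose = d at h2 h3
      obtain ⟨a, b⟩ := d
      simp only at h2
      subst h2
      exact ⟨_, mem_image_of_mem _ (mem_univ b), h3⟩
    choose! f hf using hex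
    refine le_trans (card_le_card_of_injOn f (fun e he => (hf e he).1) ?_) hT
    intro e he e' he' hee
    by_contra hne
    have h1 := (hf e he).2
    have h2 := (hf e' he').2
    rw [← hee] at h2
    have h3 := hI.disj e (mem_filter.1 he).1 e' (mem_filter.1 he').1 hne
    exact (Finset.disjoint_left.1 h3 h1) h2
  have hM2 : t j ≤ M0.card := by
    have h1 := card_filter_add_card_filter_not (s := M) dm
    have h2 := ht j
    rw [hM] at h1
    rw [hM0]
    omega
  obtain ⟨M1, hM1s, hM1c⟩ := exists_subset_card_eq hM2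
  -- pull back
  let g : Finset V → Finset (Fin n) := fun e => univ.filter (fun i => Sum.inl i ∈ e)
  have hgmap : ∀ e ∈ M0, (g e).map ⟨Sum.inl, Sum.inl_injective⟩ = e := by
    intro e he
    rw [hM0, mem_filter] at he
    ext v
    rw [mem_map]
    constructor
    · rintro ⟨i, hi, rfl⟩
      exact (mem_filter.1 hi).2
    · intro hv
      rcases v with i | d
      · exact ⟨i, mem_filter.2 ⟨mem_univ _, hv⟩, rfl⟩
      · exact absurd ⟨d, hv⟩ he.2
  have hginj : Set.InjOn g (M1 : Set (Finset V)) := by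
    intro e he e' he' hee
    rw [← hgmap e (hM1s he), ← hgmap e' (hM1s he'), hee]
  refine ⟨j, M1.image g, ?_, ⟨fun _ _ => subset_univ _, ?_, ?_, ?_⟩⟩
  · rw [card_image_of_injOn hginj, hM1c]
  · intro e he
    obtain ⟨e', he', rfl⟩ := mem_image.1 he
    have h0 := hM1s he'
    have h1 := hI.card e' (mem_filter.1 h0).1
    rw [← hgmap e' h0, card_map] at h1
    exact h1
  · intro e he
    obtain ⟨e', he', rfl⟩ := mem_image.1 he
    have h0 := hM1s he'
    have h1 := hI.col e' (mem_filter.1 h0).1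
    have h2 : c' e' = c (g e') := dif_neg (mem_filter.1 h0).2
    rw [← h2, h1]
  · intro e he f hf hne
    obtain ⟨e', he', rfl⟩ := mem_image.1 he
    obtain ⟨f', hf', rfl⟩ := mem_image.1 hf
    have h0 := hM1s he'
    have h0' := hM1s hf'
    have h3 := hI.disj e' (mem_filter.1 h0).1 f' (mem_filter.1 h0').1 (by
      rintro rfl; exact hne rfl)
    rw [← hgmap e' h0, ← hgmap f' h0'] at h3
    exact (disjoint_map _).1 h3

end Pool.Agent.Q294.SC
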