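import Pool.Agent.Q294.SC.AFL

/-!
# Sampling
-/

set_option autoImplicit false

namespace Pool.Agent.Q294.SC

open Finset

section

variable {V : Type} [Fintype V]

theorem sum_cons (G : ℕ) (F : (Fin (G + 1) → V) → ℝ) :
    ∑ ω, F ω = ∑ v : V, ∑ ω : Fin G → V, F (Fin.cons v ω) := by
  rw [← Fintype.sum_prod_type']
  exact (Fintype.sum_equiv (Fin.consEquiv (fun _ => V)) _ _ (fun _ => rfl)).symm

theorem first_moment (f : V → ℝ) (hf : ∑ v, f v = 0) (G : ℕ) :
    ∑ ω : Fin G → V, ∑ i, f (ω i) = 0 := by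
  induction G with
  | zero => simp
  | succ G ih =>
    rw [sum_cons]
    simp only [Fin.sum_univ_succ, Fin.cons_zero, Fin.cons_succ, sum_add_distrib, ih]
    simp only [sum_const]
    rw [← Finset.smul_sum, hf, smul_zero]
    simp

theorem second_moment (f : V → ℝ) (hf : ∑ v, f v = 0) (hf1 : ∀ v, f v ^ 2 ≤ 1) (G : ℕ) :
    ∑ ω : Fin G → V, (∑ i, f (ω i)) ^ 2 ≤ G * (Fintype.card V : ℝ) ^ G := by
  induction G with
  | zero => simp
  | succ G ih =>
    rw [sum_cons]
    have h1 : ∀ v : V, ∑ ω : Fin G → V, (∑ i, f ((Fin.cons v ω : Fin (G + 1) → V) i)) ^ 2 =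
        f v ^ 2 * (Fintype.card V : ℝ) ^ G + ∑ ω : Fin G → V, (∑ i, f (ω i)) ^ 2 := by
      intro v
      have : ∀ ω : Fin G → V, (∑ i, f ((Fin.cons v ω : Fin (G + 1) → V) i)) ^ 2 =
          f v ^ 2 + 2 * f v * (∑ i, f (ω i)) + (∑ i, f (ω i)) ^ 2 := by
        intro ω
        rw [Fin.sum_univ_succ]
        simp only [Fin.cons_zero, Fin.cons_succ]
        ring
      rw [sum_congr rfl (fun ω _ => this ω), sum_add_distrib, sum_add_distrib, ← mul_sum,
        first_moment f hf G, sum_const, card_univ, nsmul_eq_mul]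
      simp
      ring
    rw [sum_congr rfl (fun v _ => h1 v), sum_add_distrib, ← sum_mul, sum_const, card_univ,
      nsmul_eq_mul]
    have h2 : ∑ v, f v ^ 2 ≤ Fintype.card V := by
      calc ∑ v, f v ^ 2 ≤ ∑ _v : V, (1 : ℝ) := sum_le_sum (fun v _ => hf1 v)
        _ = Fintype.card V := by simp
    have h3 : (0 : ℝ) ≤ (Fintype.card V : ℝ) ^ G := by positivity
    have h4 : (0 : ℝ) ≤ (Fintype.card V : ℝ) := by positivity
    have h5 := mul_le_mul_of_nonneg_right h2 h3
    have h6 := mul_le_mul_of_nonneg_left ih h4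
    push_cast
    calc _ ≤ (Fintype.card V : ℝ) * (Fintype.card V : ℝ) ^ G +
        (Fintype.card V : ℝ) * (G * (Fintype.card V : ℝ) ^ G) := by linarith
      _ = _ := by ring

open Classical in
theorem pull_count {r G : ℕ} (p : Fin r → Fin G) (hp : Function.Injective p)
    (B : Finset (Fin r → V)) :
    (Fintype.card V) ^ r * (univ.filter (fun ω : Fin G → V => ω ∘ p ∈ B)).card ≤
      B.card * (Fintype.card V) ^ G := by
  have h1 : (Fintype.card V) ^ r = (univ : Finset (Fin r → V)).card := by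
    rw [card_univ, Fintype.card_fun, Fintype.card_fin]
  have h2 : (Fintype.card V) ^ G = (univ : Finset (Fin G → V)).card := by
    rw [card_univ, Fintype.card_fun, Fintype.card_fin]
  rw [h1, h2, ← card_product, ← card_product]
  refine card_le_card_of_injOn
    (fun x => (x.2 ∘ p, fun i => if h : ∃ k, p k = i then x.1 h.choose else x.2 i)) ?_ ?_
  · rintro ⟨u, ω⟩ hx
    simp only [coe_product, Set.mem_prod, mem_coe, mem_univ, true_and, mem_filter] at hx ⊢
    exact ⟨hx, trivial⟩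
  · rintro ⟨u, ω⟩ hx ⟨u', ω'⟩ hx' h
    simp only [Prod.mk.injEq] at h
    obtain ⟨ha, hb⟩ := h
    have hu : u = u' := by
      funext k
      have h3 := congrFun hb (p k)
      have h4 : ∃ k', p k' = p k := ⟨k, rfl⟩
      simp only [dif_pos h4] at h3
      have h5 : h4.choose = k := hp h4.choose_spec
      rw [h5] at h3
      exact h3
    have hw : ω = ω' := by
      funext i
      by_cases h4 : ∃ k, p k = i
      · obtain ⟨k, rfl⟩ := h4
        exact congrFun ha k
      · have h3 := congrFun hb i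
        simp only [dif_neg h4] at h3
        exact h3
    rw [hu, hw]

end

open Classical in
/-- a good sample exists -/
theorem exists_sample {V : Type} [Fintype V] [Nonempty V] {q r G : ℕ} (hG : 1 ≤ G) {δ η : ℝ}
    (hδ : 0 < δ) (hη : 0 ≤ η) (hlt : q / (δ ^ 2 * G) + G ^ r * η < 1)
    (y : Fin q → V → ℝ) (hy0 : ∀ j v, 0 ≤ y j v) (hy1 : ∀ j v, y j v ≤ 1)
    (m : Fin q → ℝ) (hm : ∀ j, ∑ v, y j v = m j * Fintype.card V)
    (Bad : Finset (Fin r → V)) (hBad : (Bad.card : ℝ) ≤ η * (Fintype.card V : ℝ) ^ r) :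
    ∃ ω : Fin G → V, (∀ j, ∑ i, y j (ω i) < (m j + δ) * G) ∧
      ∀ p : Fin r → Fin G, Function.Injective p → ω ∘ p ∉ Bad := by
  set n : ℝ := (Fintype.card V : ℝ) with hn
  have hn0 : 0 < n := by
    rw [hn]; exact_mod_cast Fintype.card_pos
  have hG0 : (0 : ℝ) < G := by exact_mod_cast hG
  have hm0 : ∀ j, 0 ≤ m j := by
    intro j
    have h1 : 0 ≤ ∑ v, y j v := sum_nonneg (fun v _ => hy0 j v)
    rw [hm j] at h1
    exact nonneg_of_mul_nonneg_left h1 hn0
  have hm1 : ∀ j, m j ≤ 1 := by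
    intro j
    have h1 : ∑ v, y j v ≤ n := by
      calc ∑ v, y j v ≤ ∑ _v : V, (1 : ℝ) := sum_le_sum (fun v _ => hy1 j v)
        _ = n := by simp [hn]
    rw [hm j] at h1
    by_contra hcon
    push Not at hcon
    nlinarith
  set f : Fin q → V → ℝ := fun j v => y j v - m j with hf
  have hf0 : ∀ j, ∑ v, f j v = 0 := by
    intro j
    simp only [hf, sum_sub_distrib, hm j, sum_const, card_univ, nsmul_eq_mul]
    ring
  have hf1 : ∀ j v, f j v ^ 2 ≤ 1 := by
    intro j v
    have h1 := hy0 j v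
    have h2 := hy1 j v
    have h3 := hm0 j
    have h4 := hm1 j
    simp only [hf]
    rw [sq_le_one_iff_abs_le_one, abs_le]
    constructor <;> linarith
  set Φ : (Fin G → V) → ℝ := fun ω => ∑ j, (∑ i, f j (ω i)) ^ 2 / (δ * G) ^ 2 +
    ∑ p : Fin r → Fin G, if Function.Injective p ∧ ω ∘ p ∈ Bad then (1 : ℝ) else 0 with hΦ
  have hsum : ∑ ω, Φ ω < ∑ _ω : Fin G → V, (1 : ℝ) := by
    have e1 : ∑ ω : Fin G → V, ∑ j, (∑ i, f j (ω i)) ^ 2 / (δ * G) ^ 2 ≤
        q / (δ ^ 2 * G) * n ^ G := by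
      rw [sum_comm]
      calc ∑ j, ∑ ω : Fin G → V, (∑ i, f j (ω i)) ^ 2 / (δ * G) ^ 2
          ≤ ∑ _j : Fin q, (G * n ^ G) / (δ * G) ^ 2 := by
            apply sum_le_sum
            intro j _
            rw [← sum_div]
            exact div_le_div_of_nonneg_right (second_moment (f j) (hf0 j) (hf1 j) G)
              (by positivity)
        _ = q / (δ ^ 2 * G) * n ^ G := by
            rw [sum_const, card_univ, Fintype.card_fin, nsmul_eq_mul]
            field_simp
    have e2 : ∑ ω : Fin G → V, ∑ p : Fin r → Fin G,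
        (if Function.Injective p ∧ ω ∘ p ∈ Bad then (1 : ℝ) else 0) ≤ G ^ r * η * n ^ G := by
      rw [sum_comm]
      calc ∑ p : Fin r → Fin G, ∑ ω : Fin G → V,
          (if Function.Injective p ∧ ω ∘ p ∈ Bad then (1 : ℝ) else 0)
          ≤ ∑ _p : Fin r → Fin G, η * n ^ G := by
            apply sum_le_sum
            intro p _
            by_cases hp : Function.Injective p
            · simp only [hp, true_and]
              rw [sum_boole]
              have h1 := pull_count p hp Bad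
              have h2 : n ^ r * ((univ.filter (fun ω : Fin G → V => ω ∘ p ∈ Bad)).card : ℝ) ≤
                  Bad.card * n ^ G := by
                rw [hn]; exact_mod_cast h1
              have h3 : n ^ r * ((univ.filter (fun ω : Fin G → V => ω ∘ p ∈ Bad)).card : ℝ) ≤
                  n ^ r * (η * n ^ G) := by
                refine h2.trans ?_
                have := mul_le_mul_of_nonneg_right hBad (by positivity : (0 : ℝ) ≤ n ^ G)
                calc _ ≤ η * n ^ r * n ^ G := this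
                  _ = _ := by ring
              exact le_of_mul_le_mul_left h3 (by positivity)
            · simp only [hp, false_and, if_false, sum_const_zero]
              positivity
        _ = G ^ r * η * n ^ G := by
            rw [sum_const, card_univ, Fintype.card_fun, Fintype.card_fin, Fintype.card_fin,
              nsmul_eq_mul]
            push_cast
            ring
    have e3 : ∑ _ω : Fin G → V, (1 : ℝ) = n ^ G := by
      rw [sum_const, card_univ, Fintype.card_fun, Fintype.card_fin, nsmul_eq_mul, mul_one]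
      push_cast
      rw [hn]
    rw [e3]
    simp only [hΦ]
    rw [sum_add_distrib]
    have h7 : 0 < n ^ G := by positivity
    calc _ ≤ q / (δ ^ 2 * G) * n ^ G + G ^ r * η * n ^ G := add_le_add e1 e2
      _ = (q / (δ ^ 2 * G) + G ^ r * η) * n ^ G := by ring
      _ < 1 * n ^ G := by exact mul_lt_mul_of_pos_right hlt h7
      _ = n ^ G := one_mul _
  obtain ⟨ω, _, hω⟩ := exists_lt_of_sum_lt hsum
  have hA : 0 ≤ ∑ j, (∑ i, f j (ω i)) ^ 2 / (δ * G) ^ 2 := sum_nonneg (fun j _ => by positivity)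
  have hB : 0 ≤ ∑ p : Fin r → Fin G, if Function.Injective p ∧ ω ∘ p ∈ Bad then (1 : ℝ) else 0 :=
    sum_nonneg (fun p _ => by split_ifs <;> norm_num)
  simp only [hΦ] at hω
  refine ⟨ω, ?_, ?_⟩
  · intro j
    have h1 : (∑ i, f j (ω i)) ^ 2 / (δ * G) ^ 2 ≤
        ∑ j, (∑ i, f j (ω i)) ^ 2 / (δ * G) ^ 2 :=
      single_le_sum (f := fun j => (∑ i, f j (ω i)) ^ 2 / (δ * G) ^ 2)
        (fun j _ => by positivity) (mem_univ j)
    have h2 : (∑ i, f j (ω i)) ^ 2 / (δ * G) ^ 2 < 1 := by linarith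
    have h3 : (0 : ℝ) < δ * G := by positivity
    rw [div_lt_one (by positivity)] at h2
    have h4 : ∑ i, f j (ω i) < δ * G := lt_of_pow_lt_pow_left₀ 2 h3.le h2
    have h5 : ∑ i, f j (ω i) = ∑ i, y j (ω i) - m j * G := by
      simp only [hf, sum_sub_distrib, sum_const, card_univ, Fintype.card_fin, nsmul_eq_mul]
      ring
    rw [h5] at h4
    linarith
  · intro p hp hcon
    have h1 : (if Function.Injective p ∧ ω ∘ p ∈ Bad then (1 : ℝ) else 0) ≤
        ∑ p : Fin r → Fin G, if Function.Injective p ∧ ω ∘ p ∈ Bad then (1 : ℝ) else 0 :=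
      single_le_sum (f := fun p : Fin r → Fin G =>
        if Function.Injective p ∧ ω ∘ p ∈ Bad then (1 : ℝ) else 0)
        (fun p _ => by split_ifs <;> norm_num) (mem_univ p)
    rw [if_pos ⟨hp, hcon⟩] at h1
    linarith

/-- **Fractional version of the Alon–Frankl–Lovász theorem**, robust form. -/
theorem frac_afl {q r : ℕ} (hq : 1 ≤ q) (hr : 1 ≤ r) {ε : ℝ} (hε : 0 < ε) :
    ∃ η : ℝ, 0 < η ∧ ∀ (V : Type) [Fintype V] [Nonempty V] (y : Fin q → V → ℝ),
      (∀ j v, 0 ≤ y j v) → (∀ j v, y j v ≤ 1) → ∀ (m : Fin q → ℝ),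
      (∀ j, ∑ v, y j v = m j * Fintype.card V) → ∀ Bad : Finset (Fin r → V),
      (Bad.card : ℝ) ≤ η * (Fintype.card V : ℝ) ^ r →
      (∀ v : Fin r → V, v ∉ Bad → ∃ j, 1 ≤ ∑ i, y j (v i)) →
      ∀ μ : ℝ, (∀ j, m j ≤ μ) → μ ≤ 1 → 1 ≤ (r - 1) * μ + ∑ j, m j + ε := by
  classical
  have hq0 : (1 : ℝ) ≤ q := by exact_mod_cast hq
  have hr0 : (1 : ℝ) ≤ r := by exact_mod_cast hr
  set δ : ℝ := min (ε / (2 * (r + q))) 1 with hδdef
  have hδ : 0 < δ := lt_min (by positivity) one_pos
  have hδ1 : δ ≤ 1 := min_le_right _ _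
  have hδ2 : (r + q) * δ ≤ ε / 2 := by
    have : δ ≤ ε / (2 * (r + q)) := min_le_left _ _
    rw [le_div_iff₀ (by positivity)] at this
    linarith
  -- choice of `k`
  obtain ⟨k, hk⟩ : ∃ k : ℕ, 3 + 2 * (2 * q / δ ^ 2 + 1 + 6 * r / ε + 1) < (2 : ℝ) ^ k :=
    pow_unbounded_of_one_lt _ (by norm_num)
  have hk0 : (0 : ℝ) < 2 ^ k := by positivity
  refine ⟨(δ / 2 ^ k) ^ r / 2, by positivity, ?_⟩
  intro V _ _ y hy0 hy1 m hm Bad hBad hcov μ hμ hμ1
  by_contra hcon
  push Not at hcon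
  have hm0 : ∀ j, 0 ≤ m j := by
    intro j
    have h1 : 0 ≤ ∑ v, y j v := sum_nonneg (fun v _ => hy0 j v)
    rw [hm j] at h1
    exact nonneg_of_mul_nonneg_left h1 (by exact_mod_cast Fintype.card_pos)
  have hμ0 : 0 ≤ μ := (hm0 ⟨0, hq⟩).trans (hμ _)
  set M : ℝ := μ + δ with hM
  have hM0 : 0 < M := by linarith
  have hMδ : δ ≤ M := by linarith
  have hM2 : M ≤ 2 := by linarith
  have h2k1 : (0 : ℝ) ≤ 2 ^ k - 1 := by
    have : (1 : ℝ) ≤ 2 ^ k := one_le_pow₀ (by norm_num)
    linarith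
  set G : ℕ := ⌊((2 : ℝ) ^ k - 1) / M⌋₊ with hGdef
  have hG1 : (G : ℝ) ≤ (2 ^ k - 1) / M := Nat.floor_le (by positivity)
  have hG2 : (2 ^ k - 1) / M < G + 1 := Nat.lt_floor_add_one _
  have hGM : M * G ≤ 2 ^ k - 1 := by
    rw [le_div_iff₀ hM0] at hG1
    linarith
  have hGM2 : 2 ^ k - 1 < M * (G + 1) := by
    rw [div_lt_iff₀ hM0] at hG2
    linarith
  have hGlow : 2 * q / δ ^ 2 + 1 + 6 * r / ε + 1 < G + 1 := by
    have : 2 ^ k - 1 < 2 * ((G : ℝ) + 1) := by
      have : M * ((G : ℝ) + 1) ≤ 2 * (G + 1) :=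
        mul_le_mul_of_nonneg_right hM2 (by positivity)
      linarith
    linarith
  have hq2 : 0 ≤ 2 * q / δ ^ 2 := by positivity
  have hr2 : 0 ≤ 6 * r / ε := by positivity
  have hG1' : (1 : ℝ) < G := by linarith
  have hG1N : 1 ≤ G := by
    have : (1 : ℝ) ≤ G := hG1'.le
    exact_mod_cast this
  have hGup : (G : ℝ) ≤ 2 ^ k / δ := by
    rw [le_div_iff₀ hδ]
    calc (G : ℝ) * δ ≤ G * M := mul_le_mul_of_nonneg_left hMδ (by positivity)
      _ = M * G := by ring
      _ ≤ 2 ^ k := by linarith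
  have hlt : q / (δ ^ 2 * G) + G ^ r * ((δ / 2 ^ k) ^ r / 2) < 1 := by
    have h1 : q / (δ ^ 2 * G) < 1 / 2 := by
      rw [div_lt_div_iff₀ (by positivity) (by norm_num)]
      have : 2 * q / δ ^ 2 < G := by linarith
      rw [div_lt_iff₀ (by positivity)] at this
      linarith
    have h2 : (G : ℝ) ^ r * ((δ / 2 ^ k) ^ r / 2) ≤ 1 / 2 := by
      have h3 : (G : ℝ) * (δ / 2 ^ k) ≤ 1 := by
        rw [le_div_iff₀ hδ] at hGup
        rw [← mul_div_assoc, div_le_one hk0]
        exact hGup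
      have h4 : ((G : ℝ) * (δ / 2 ^ k)) ^ r ≤ 1 := pow_le_one₀ (by positivity) h3
      rw [mul_pow] at h4
      linarith
    linarith
  obtain ⟨ω, hω1, hω2⟩ := exists_sample (q := q) (r := r) hG1N hδ
    (by positivity : (0 : ℝ) ≤ (δ / 2 ^ k) ^ r / 2) hlt y hy0 hy1 m hm Bad hBad
  -- colouring
  have hc : ∀ e : Finset (Fin G), e.card = r → ∃ j, 1 ≤ ∑ i ∈ e, y j (ω i) := by
    intro e he
    have h1 := hω2 (e.orderEmbOfFin he) (e.orderEmbOfFin he).injective
    obtain ⟨j, hj⟩ := hcov _ h1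
    refine ⟨j, hj.trans (le_of_eq ?_)⟩
    have h2 : e = univ.image (e.orderEmbOfFin he) := by
      ext x
      have := Finset.range_orderEmbOfFin e he
      rw [Set.ext_iff] at this
      simp only [mem_image, mem_univ, true_and]
      rw [← mem_coe, ← this x, Set.mem_range]
    conv_rhs => rw [h2]
    rw [sum_image (fun a _ b _ h => (e.orderEmbOfFin he).injective h)]
    rfl
  let c : Finset (Fin G) → Fin q := fun e => if h : e.card = r then (hc e h).choose else ⟨0, hq⟩
  set t : Fin q → ℕ := fun j => ⌊(m j + δ) * G⌋₊ + 1 with ht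
  have ht1 : ∀ j, 1 ≤ t j := fun j => by simp [ht]
  have hmG : ∀ j, (m j + δ) * G ≤ 2 ^ k - 1 := by
    intro j
    have : (m j + δ) * G ≤ M * G := by
      apply mul_le_mul_of_nonneg_right _ (by positivity)
      have := hμ j
      linarith
    linarith
  have ht2 : ∀ j, t j ≤ 2 ^ k := by
    intro j
    simp only [ht]
    have h1 : ⌊(m j + δ) * G⌋₊ ≤ 2 ^ k - 1 := by
      apply Nat.floor_le_of_le
      rw [Nat.cast_sub Nat.one_le_two_pow]
      push_cast
      exact hmG j
    have : 1 ≤ 2 ^ k := Nat.one_le_two_pow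
    omega
  have hsize : (r - 1) * 2 ^ k + ∑ j, (t j - 1) + 1 ≤ G := by
    have h1 : (((r - 1) * 2 ^ k + ∑ j, (t j - 1) + 1 : ℕ) : ℝ) ≤ G := by
      rw [Nat.cast_add, Nat.cast_add, Nat.cast_mul, Nat.cast_sub hr, Nat.cast_sum]
      push_cast
      have h2 : ∑ j, ((t j - 1 : ℕ) : ℝ) ≤ ∑ j, (m j + δ) * G := by
        apply sum_le_sum
        intro j _
        simp only [ht, Nat.add_sub_cancel]
        exact Nat.floor_le (mul_nonneg (by have := hm0 j; linarith) (by positivity))
      have h3 : ∑ j, (m j + δ) * G = (∑ j, m j + q * δ) * G := by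
        rw [← sum_mul, sum_add_distrib, sum_const, card_univ, Fintype.card_fin, nsmul_eq_mul]
      have h4 : ((r : ℝ) - 1) * 2 ^ k ≤ (r - 1) * (M * (G + 1) + 1) := by
        apply mul_le_mul_of_nonneg_left _ (by linarith)
        linarith
      have h5 : 6 * r / ε < G := by linarith
      rw [div_lt_iff₀ hε] at h5
      have h6 : ((r : ℝ) - 1) * M ≤ (r - 1) * 2 := mul_le_mul_of_nonneg_left hM2 (by linarith)
      have h7 : ((r : ℝ) - 1) * (M * (G + 1) + 1) + (∑ j, m j + q * δ) * G + 1 ≤ G := by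
        have h8 : ((r : ℝ) - 1) * (M * (G + 1) + 1) + (∑ j, m j + q * δ) * G + 1 =
            G * ((r - 1) * μ + ∑ j, m j + ((r - 1) * δ + q * δ)) +
              ((r - 1) * M + (r - 1) + 1) := by
          rw [hM]; ring
        have h9 : (r - 1) * μ + ∑ j, m j + ((r - 1) * δ + q * δ) ≤ 1 - ε / 2 := by
          have : ((r : ℝ) - 1) * δ + q * δ ≤ (r + q) * δ := by nlinarith
          linarith
        have h10 := mul_le_mul_of_nonneg_left h9 (by positivity : (0 : ℝ) ≤ G)
        rw [h8]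
        nlinarith
      linarith
    exact_mod_cast h1
  obtain ⟨j, MM, hMM, hI⟩ := afl_gen hq k r G hr t ht1 ht2 hsize c
  have h1 : (t j : ℝ) ≤ ∑ e ∈ MM, ∑ i ∈ e, y j (ω i) := by
    rw [← hMM]
    calc (MM.card : ℝ) = ∑ e ∈ MM, (1 : ℝ) := by simp
      _ ≤ _ := by
        apply sum_le_sum
        intro e he
        have h2 := hI.card e he
        have h3 := hI.col e he
        have h4 : c e = (hc e h2).choose := dif_pos h2
        have h5 := (hc e h2).choose_spec
        rw [← h4, h3] at h5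
        exact h5
  have h2 : ∑ e ∈ MM, ∑ i ∈ e, y j (ω i) ≤ ∑ i, y j (ω i) := by
    rw [← sum_biUnion]
    · exact sum_le_sum_of_subset_of_nonneg (subset_univ _) (fun i _ _ => hy0 j _)
    · intro e he f hf hne
      exact hI.disj e he f hf hne
  have h3 := hω1 j
  have h4 : (m j + δ) * G < t j := by
    simp only [ht]
    push_cast
    exact Nat.lt_floor_add_one _
  linarith

end Pool.Agent.Q294.SC
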