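import Pool.Agent.Q294.SC.Dual
import Pool.Agent.Q294.SC.Sample

/-!
# Monochromatic matchings in connectors
-/

set_option autoImplicit false

namespace Pool.Agent.Q294.SC

open Finset

section

variable {V : Type} [Fintype V] [DecidableEq V] {r : ℕ}

/-- a balanced partition -/
theorem exists_balanced (V : Type) [Fintype V] [DecidableEq V] {K0 : ℕ} (hK0 : 1 ≤ K0) :
    ∃ π0 : V → Fin K0, ∀ l, ((fib π0 l).card : ℝ) ≤ Fintype.card V / K0 + 1 := by
  classical
  set n := Fintype.card V
  let e : V ≃ Fin n := Fintype.equivFin V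
  refine ⟨fun v => ⟨(e v).1 % K0, Nat.mod_lt _ hK0⟩, ?_⟩
  intro l
  have h1 : (fib (fun v => (⟨(e v).1 % K0, Nat.mod_lt _ hK0⟩ : Fin K0)) l).card ≤ n / K0 + 1 := by
    have h2 : ∀ v ∈ fib (fun v => (⟨(e v).1 % K0, Nat.mod_lt _ hK0⟩ : Fin K0)) l,
        (e v).1 / K0 ∈ range (n / K0 + 1) := by
      intro v _
      rw [mem_range]
      have := Nat.div_le_div_right (c := K0) (e v).2.le
      omega
    refine (card_le_card_of_injOn (fun v => (e v).1 / K0) h2 ?_).trans (by rw [card_range])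
    intro v hv w hw h
    rw [mem_coe, mem_fib] at hv hw
    have hv' := congrArg Fin.val hv
    have hw' := congrArg Fin.val hw
    simp only at hv' hw' h
    apply e.injective
    apply Fin.ext
    rw [← Nat.div_add_mod (e v).1 K0, ← Nat.div_add_mod (e w).1 K0, hv', hw', h]
  have h3 : ((n / K0 : ℕ) : ℝ) ≤ n / K0 := Nat.cast_div_le
  have h4 : ((fib (fun v => (⟨(e v).1 % K0, Nat.mod_lt _ hK0⟩ : Fin K0)) l).card : ℝ) ≤
      ((n / K0 : ℕ) : ℝ) + 1 := by exact_mod_cast h1
  linarith

open Classical in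
/-- tuples with equal labels at two places -/
noncomputable def nset {κ0 : Type} (π0 : V → κ0) (i i' : Fin r) : Finset (Fin r → V) :=
  univ.filter (fun v : Fin r → V => π0 (v i) = π0 (v i'))

theorem mem_nset {κ0 : Type} {π0 : V → κ0} {i i' : Fin r} {v : Fin r → V} :
    v ∈ nset π0 i i' ↔ π0 (v i) = π0 (v i') := by
  simp [nset]

open Classical in
theorem card_noninj {κ0 : Type} [Fintype κ0] (π0 : V → κ0) {F : ℝ}
    (hF : ∀ l, ((fib π0 l).card : ℝ) ≤ F) {i i' : Fin r} (hi : i ≠ i') :
    (Fintype.card V : ℝ) * ((nset π0 i i').card : ℝ) ≤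
      F * (Fintype.card V : ℝ) ^ r := by
  unfold nset
  rcases isEmpty_or_nonempty V with hV | hV
  · have : IsEmpty (Fin r → V) := ⟨fun f => hV.false (f i)⟩
    have hF0 : 0 ≤ F * (Fintype.card V : ℝ) ^ r := by
      have h1 : Fintype.card V = 0 := Fintype.card_eq_zero
      have h2 : r ≠ 0 := by
        intro h; subst h; exact i.elim0
      rw [h1]
      simp [h2]
    rw [Fintype.card_eq_zero]
    simpa using hF0
  set B : Finset (Fin 2 → V) := univ.filter (fun u => π0 (u 0) = π0 (u 1)) with hB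
  have hp : Function.Injective (![i, i'] : Fin 2 → Fin r) := by
    intro a b h
    fin_cases a <;> fin_cases b
    · rfl
    · exact absurd h hi
    · exact absurd h hi.symm
    · rfl
  have h1 : (Fintype.card V) ^ 2 *
      (univ.filter (fun v : Fin r → V => π0 (v i) = π0 (v i'))).card ≤
      B.card * (Fintype.card V) ^ r := by
    refine le_trans (le_of_eq ?_) (pull_count (![i, i'] : Fin 2 → Fin r) hp B)
    congr 1
    apply congrArg Finset.card
    ext v
    simp [hB]
  have h3 : (B.card : ℝ) ≤ Fintype.card V * F := by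
    have e1 : B.card = ∑ v : V, (fib π0 (π0 v)).card := by
      rw [← card_sigma]
      refine card_bij (fun u _ => ⟨u 0, u 1⟩) ?_ ?_ ?_
      · intro u hu
        rw [mem_sigma]
        exact ⟨mem_univ _, mem_fib.2 ((mem_filter.1 hu).2).symm⟩
      · intro u _ u' _ h
        simp only [Sigma.mk.injEq, heq_eq_eq] at h
        funext k
        fin_cases k
        · exact h.1
        · exact h.2
      · rintro ⟨a, b⟩ hab
        rw [mem_sigma] at hab
        refine ⟨![a, b], ?_, by simp⟩
        rw [hB, mem_filter]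
        exact ⟨mem_univ _, (mem_fib.1 hab.2).symm⟩
    rw [e1]
    push_cast
    calc ∑ v : V, ((fib π0 (π0 v)).card : ℝ) ≤ ∑ _v : V, F := sum_le_sum (fun v _ => hF _)
      _ = Fintype.card V * F := by simp
  have h4 : (Fintype.card V : ℝ) ^ 2 *
      ((univ.filter (fun v : Fin r → V => π0 (v i) = π0 (v i'))).card : ℝ) ≤
      B.card * (Fintype.card V : ℝ) ^ r := by exact_mod_cast h1
  have hn : (0 : ℝ) < Fintype.card V := by exact_mod_cast Fintype.card_pos
  have h5 := mul_le_mul_of_nonneg_right h3 (by positivity : (0 : ℝ) ≤ (Fintype.card V : ℝ) ^ r)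
  have h6 : (Fintype.card V : ℝ) * ((Fintype.card V : ℝ) *
      ((univ.filter (fun v : Fin r → V => π0 (v i) = π0 (v i'))).card : ℝ)) ≤
      (Fintype.card V : ℝ) * (F * (Fintype.card V : ℝ) ^ r) := by
    calc _ = (Fintype.card V : ℝ) ^ 2 *
        ((univ.filter (fun v : Fin r → V => π0 (v i) = π0 (v i'))).card : ℝ) := by ring
      _ ≤ _ := h4.trans h5
      _ = _ := by ring
  exact le_of_mul_le_mul_left h6 hn

open Classical in
theorem card_small {κ : Type} [Fintype κ] [Nonempty V] (π : V → κ) {σ : ℝ} (hσ0 : 0 ≤ σ) (i : Fin r) :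
    ((univ.filter (fun v : Fin r → V => ((fib π (π (v i))).card : ℝ) < σ * Fintype.card V)).card
      : ℝ) ≤ Fintype.card κ * σ * (Fintype.card V : ℝ) ^ r := by
  have hn : (0 : ℝ) < Fintype.card V := by exact_mod_cast Fintype.card_pos
  set B : Finset (Fin 1 → V) :=
    univ.filter (fun u => ((fib π (π (u 0))).card : ℝ) < σ * Fintype.card V) with hB
  have hp : Function.Injective (fun _ : Fin 1 => i) := by
    intro a b _
    exact Subsingleton.elim _ _
  have h1 : (Fintype.card V) ^ 1 * (univ.filter (fun v : Fin r → V =>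
      ((fib π (π (v i))).card : ℝ) < σ * Fintype.card V)).card ≤
      B.card * (Fintype.card V) ^ r := by
    refine le_trans (le_of_eq ?_) (pull_count (fun _ : Fin 1 => i) hp B)
    congr 1
    apply congrArg Finset.card
    ext v
    simp [hB]
  have h3 : (B.card : ℝ) ≤ Fintype.card κ * (σ * Fintype.card V) := by
    have e1 : B.card = (univ.filter (fun v : V =>
        ((fib π (π v)).card : ℝ) < σ * Fintype.card V)).card := by
      refine card_bij (fun u _ => u 0) ?_ ?_ ?_
      · intro u hu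
        exact mem_filter.2 ⟨mem_univ _, (mem_filter.1 hu).2⟩
      · intro u _ u' _ h
        funext k
        rw [Subsingleton.elim k 0]
        exact h
      · intro v hv
        exact ⟨fun _ => v, mem_filter.2 ⟨mem_univ _, (mem_filter.1 hv).2⟩, rfl⟩
    have e2 : ((univ.filter (fun v : V =>
        ((fib π (π v)).card : ℝ) < σ * Fintype.card V)).card : ℝ) =
        ∑ l, ((univ.filter (fun v : V => ((fib π (π v)).card : ℝ) < σ * Fintype.card V ∧
          π v = l)).card : ℝ) := by
      have := card_eq_sum_card_fiberwise (f := π) (s := univ.filter (fun v : V =>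
        ((fib π (π v)).card : ℝ) < σ * Fintype.card V)) (t := univ) (fun _ _ => mem_univ _)
      rw [this]
      push_cast
      apply sum_congr rfl
      intro l _
      congr 2
      ext v
      simp
    rw [e1, e2]
    have hσ : ∀ l, ((univ.filter (fun v : V => ((fib π (π v)).card : ℝ) < σ * Fintype.card V ∧
        π v = l)).card : ℝ) ≤ max 0 (σ * Fintype.card V) := by
      intro l
      by_cases h : ((fib π l).card : ℝ) < σ * Fintype.card V
      · refine le_trans ?_ (h.le.trans (le_max_right _ _))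
        have : (univ.filter (fun v : V => ((fib π (π v)).card : ℝ) < σ * Fintype.card V ∧
          π v = l)) ⊆ fib π l := by
          intro v hv
          exact mem_fib.2 (mem_filter.1 hv).2.2
        exact_mod_cast card_le_card this
      · have : (univ.filter (fun v : V => ((fib π (π v)).card : ℝ) < σ * Fintype.card V ∧
          π v = l)) = ∅ := by
          rw [Finset.eq_empty_iff_forall_notMem]
          intro v hv
          have h5 := (mem_filter.1 hv).2
          rw [h5.2] at h5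
          exact h h5.1
        rw [this]
        simp
    calc _ ≤ ∑ _l : κ, max 0 (σ * Fintype.card V) := sum_le_sum (fun l _ => hσ l)
      _ = Fintype.card κ * (σ * Fintype.card V) := by
        rw [max_eq_right (by positivity)]
        simp
  have h4 : (Fintype.card V : ℝ) ^ 1 *
      ((univ.filter (fun v : Fin r → V =>
        ((fib π (π (v i))).card : ℝ) < σ * Fintype.card V)).card : ℝ) ≤
      B.card * (Fintype.card V : ℝ) ^ r := by exact_mod_cast h1
  have h5 := mul_le_mul_of_nonneg_right h3 (by positivity : (0 : ℝ) ≤ (Fintype.card V : ℝ) ^ r)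
  have h6 : (Fintype.card V : ℝ) *
      ((univ.filter (fun v : Fin r → V =>
        ((fib π (π (v i))).card : ℝ) < σ * Fintype.card V)).card : ℝ) ≤
      (Fintype.card V : ℝ) * (Fintype.card κ * σ * (Fintype.card V : ℝ) ^ r) := by
    calc _ = (Fintype.card V : ℝ) ^ 1 * _ := by rw [pow_one]
      _ ≤ _ := h4.trans h5
      _ = _ := by ring
  exact le_of_mul_le_mul_left h6 hn

end

open Classical in
/-- the main theorem, `ε`-`δ` form -/
theorem core {q r : ℕ} (hq : 1 ≤ q) (hr : 1 ≤ r) {ε0 : ℝ} (hε0 : 0 < ε0) :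
    ∃ x0 : ℝ, 0 < x0 ∧ ∀ (V : Type) [Fintype V] [DecidableEq V] (E : Finset V → Prop) (s : ℕ),
      1 ≤ s → (s : ℝ) ≤ x0 * Fintype.card V →
      (∀ A : Fin r → Finset V, (∀ i j, i ≠ j → Disjoint (A i) (A j)) → (∀ i, s ≤ (A i).card) →
        ∃ v : Fin r → V, (∀ i, v i ∈ A i) ∧ E (univ.image v)) →
      ∀ (t : Fin q → ℕ) (τ : ℕ), (∀ j, 1 ≤ t j) → (∀ j, t j ≤ τ) →
      ((r : ℝ) - 1) * τ + ∑ j, ((t j : ℝ) - 1) + 1 + Fintype.card V * ε0 ≤ Fintype.card V →
      ∀ c : Finset V → Fin q, ∃ (j : Fin q) (M : Finset (Finset V)), M.card = t j ∧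
        (∀ e ∈ M, E e ∧ c e = j) ∧ (∀ e ∈ M, ∀ f ∈ M, e ≠ f → Disjoint e f) := by
  have hq0 : (1 : ℝ) ≤ q := by exact_mod_cast hq
  have hr0 : (1 : ℝ) ≤ r := by exact_mod_cast hr
  set ε : ℝ := min (ε0 / 4) (1 / 4) with hεdef
  have hε : 0 < ε := lt_min (by positivity) (by norm_num)
  have hε4 : ε ≤ ε0 / 4 := min_le_left _ _
  have hε1 : ε ≤ 1 / 4 := min_le_right _ _
  obtain ⟨η, hη, hfrac⟩ := frac_afl (q := q) (r := r) hq hr hε
  obtain ⟨K0, hK0⟩ := exists_nat_ge (4 * r ^ 2 / η + 1)
  have hK0' : 1 ≤ K0 := by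
    have : (1 : ℝ) ≤ K0 := by
      have : 0 ≤ 4 * (r : ℝ) ^ 2 / η := by positivity
      linarith
    exact_mod_cast this
  obtain ⟨K, hK⟩ := regularity q r K0 hε (show 0 < η / 4 by positivity)
  set σ : ℝ := η / (4 * r * (K + 1)) with hσ
  have hσ0 : 0 < σ := by positivity
  set N0 : ℝ := (r + q) * (K : ℝ) ^ r / ε + 4 * r ^ 2 / η + 1 with hN0
  have hN00 : 0 < N0 := by positivity
  refine ⟨min σ (1 / N0), lt_min hσ0 (by positivity), ?_⟩
  intro V _ _ E s hs1 hs hconn t τ ht1 htτ hn c
  by_contra hno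
  push Not at hno
  set n : ℝ := (Fintype.card V : ℝ) with hndef
  have hn0' : 0 ≤ n := by positivity
  have hnN : N0 ≤ n := by
    have h1 : (1 : ℝ) ≤ s := by exact_mod_cast hs1
    have h2 : min σ (1 / N0) * n ≤ 1 / N0 * n := mul_le_mul_of_nonneg_right (min_le_right _ _) hn0'
    have h3 : 1 ≤ 1 / N0 * n := by linarith
    rw [one_div, inv_mul_eq_div, le_div_iff₀ hN00, one_mul] at h3
    exact h3
  have hsσ : (s : ℝ) ≤ σ * n := hs.trans (mul_le_mul_of_nonneg_right (min_le_left _ _) hn0')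
  have hn0 : 0 < n := lt_of_lt_of_le hN00 hnN
  have hVne : Nonempty V := by
    rw [← Fintype.card_pos_iff]
    have : (0 : ℝ) < (Fintype.card V : ℝ) := hn0
    exact_mod_cast this
  -- regularity
  let P : Fin q → Finset V → Prop := fun j e => E e ∧ c e = j
  obtain ⟨π0, hπ0⟩ := exists_balanced V hK0'
  obtain ⟨κ, hκf, π, f, hf, hκ, hu⟩ := hK V P (Fin K0) π0 (by rw [Fintype.card_fin])
  have hκR : (Fintype.card κ : ℝ) ≤ K := by exact_mod_cast hκ
  -- covers
  have hcov : ∀ j, ∃ y : κ → ℝ, (∀ l, 0 ≤ y l) ∧ (∀ l, y l ≤ 1) ∧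
      (1 - ε) * ∑ v, y (π v) ≤ t j - 1 + (Fintype.card κ : ℝ) ^ r ∧
      ∀ a : Fin r → κ, Function.Injective a → Conn (P j) ε (fun i => fib π (a i)) →
        1 ≤ ∑ i, y (a i) := by
    intro j
    refine exists_cover hr hε.le (by linarith) π (ht1 j) ?_
    rintro ⟨M, hM1, hM2, hM3⟩
    obtain ⟨e, he, g, hg, hne, hd⟩ := hno j M hM1 hM2
    exact hd (hM3 e he g hg hne)
  choose y hy0 hy1 hy2 hy3 using hcov
  -- bad tuples
  set B1 : Finset (Fin r → V) := (univ : Finset (Fin r × Fin r)).biUnion (fun p =>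
    if p.1 ≠ p.2 then nset π0 p.1 p.2 else ∅) with hB1
  set B2 : Finset (Fin r → V) := (univ : Finset (Fin r)).biUnion (fun i =>
    univ.filter (fun v : Fin r → V => ((fib π (π (v i))).card : ℝ) < σ * Fintype.card V)) with hB2
  set B3 : Finset (Fin r → V) := (univ : Finset (Fin q)).biUnion (fun j => uset r (P j) ε π)
    with hB3
  have hcB1 : (B1.card : ℝ) ≤ η / 2 * n ^ r := by
    have h1 : (B1.card : ℝ) ≤ ∑ p : Fin r × Fin r, ((if p.1 ≠ p.2 then
        nset π0 p.1 p.2 else ∅).card : ℝ) := by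
      exact_mod_cast card_biUnion_le
    have h2 : ∀ p : Fin r × Fin r, (((if p.1 ≠ p.2 then
        nset π0 p.1 p.2 else ∅).card : ℕ) : ℝ) ≤ (1 / K0 + 1 / n) * n ^ r := by
      intro p
      split_ifs with h
      · have h3 := card_noninj π0 hπ0 h
        have h4 : n * ((nset π0 p.1 p.2).card : ℝ) ≤ n * ((1 / K0 + 1 / n) * n ^ r) := by
          refine h3.trans (le_of_eq ?_)
          have hKne : (K0 : ℝ) ≠ 0 := by
            have : (1 : ℝ) ≤ K0 := by exact_mod_cast hK0'
            linarith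
          field_simp
          ring
        exact le_of_mul_le_mul_left h4 hn0
      · simp
        positivity
    have h5 : (B1.card : ℝ) ≤ (r : ℝ) ^ 2 * ((1 / K0 + 1 / n) * n ^ r) := by
      refine h1.trans ((sum_le_sum (fun p _ => h2 p)).trans (le_of_eq ?_))
      rw [sum_const, card_univ, Fintype.card_prod, Fintype.card_fin, nsmul_eq_mul]
      push_cast
      ring
    have hKpos : (0 : ℝ) < K0 := by exact_mod_cast hK0'
    have h6 : (r : ℝ) ^ 2 * (1 / K0) ≤ η / 4 := by
      rw [mul_one_div, div_le_iff₀ hKpos]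
      have : 4 * (r : ℝ) ^ 2 / η ≤ K0 := by linarith
      rw [div_le_iff₀ hη] at this
      linarith
    have h7 : (r : ℝ) ^ 2 * (1 / n) ≤ η / 4 := by
      rw [mul_one_div, div_le_iff₀ hn0]
      have h8 : 0 ≤ (r + q) * (K : ℝ) ^ r / ε := by positivity
      have : 4 * (r : ℝ) ^ 2 / η ≤ n := by linarith
      rw [div_le_iff₀ hη] at this
      linarith
    calc (B1.card : ℝ) ≤ (r : ℝ) ^ 2 * ((1 / K0 + 1 / n) * n ^ r) := h5
      _ = ((r : ℝ) ^ 2 * (1 / K0) + (r : ℝ) ^ 2 * (1 / n)) * n ^ r := by ring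
      _ ≤ (η / 4 + η / 4) * n ^ r :=
          mul_le_mul_of_nonneg_right (add_le_add h6 h7) (by positivity)
      _ = η / 2 * n ^ r := by ring
  have hcB2 : (B2.card : ℝ) ≤ η / 4 * n ^ r := by
    have h1 : (B2.card : ℝ) ≤ ∑ i : Fin r, ((univ.filter (fun v : Fin r → V =>
        ((fib π (π (v i))).card : ℝ) < σ * Fintype.card V)).card : ℝ) := by
      exact_mod_cast card_biUnion_le
    have h2 := h1.trans (sum_le_sum (fun i _ => card_small π hσ0.le i))
    rw [sum_const, card_univ, Fintype.card_fin, nsmul_eq_mul] at h2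
    refine h2.trans ?_
    rw [← mul_assoc]
    apply mul_le_mul_of_nonneg_right _ (by positivity)
    rw [hσ]
    have hK1 : (0 : ℝ) < K + 1 := by positivity
    have h3 : (r : ℝ) * (Fintype.card κ * (η / (4 * r * (K + 1)))) =
        η / 4 * (Fintype.card κ / (K + 1)) := by
      field_simp
    rw [h3]
    have h4 : (Fintype.card κ : ℝ) / (K + 1) ≤ 1 := by
      rw [div_le_one hK1]
      linarith
    nlinarith
  have hcB3 : (B3.card : ℝ) ≤ η / 4 * n ^ r := by
    have h1 : (B3.card : ℝ) ≤ ∑ j : Fin q, ((uset r (P j) ε π).card : ℝ) := by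
      exact_mod_cast card_biUnion_le
    exact h1.trans hu
  set m : Fin q → ℝ := fun j => (∑ v, y j (π v)) / n with hm
  have hmn : ∀ j, ∑ v, y j (π v) = m j * n := by
    intro j
    simp only [hm]
    rw [div_mul_cancel₀ _ hn0.ne']
  have : Nonempty (Fin q) := ⟨⟨0, hq⟩⟩
  obtain ⟨j0, hj0⟩ := Finite.exists_max m
  have hμ1 : m j0 ≤ 1 := by
    simp only [hm]
    rw [div_le_one hn0]
    calc ∑ v, y j0 (π v) ≤ ∑ _v : V, (1 : ℝ) := sum_le_sum (fun v _ => hy1 j0 _)
      _ = n := by simp [hndef]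
  have hmain := hfrac V (fun j v => y j (π v)) (fun j v => hy0 j _) (fun j v => hy1 j _) m hmn
    (B1 ∪ B2 ∪ B3) (by
      have h1 : ((B1 ∪ B2 ∪ B3).card : ℝ) ≤ B1.card + B2.card + B3.card := by
        have := (card_union_le (B1 ∪ B2) B3).trans (Nat.add_le_add_right (card_union_le B1 B2) _)
        exact_mod_cast this
      calc _ ≤ _ := h1
        _ ≤ η / 2 * n ^ r + η / 4 * n ^ r + η / 4 * n ^ r := by linarith
        _ = η * n ^ r := by ring)
    (by
      intro v hv
      rw [mem_union, mem_union, not_or, not_or] at hv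
      obtain ⟨⟨hv1, hv2⟩, hv3⟩ := hv
      have hinj0 : ∀ i i', i ≠ i' → π0 (v i) ≠ π0 (v i') := by
        intro i i' hne h
        apply hv1
        rw [hB1, mem_biUnion]
        refine ⟨(i, i'), mem_univ _, ?_⟩
        rw [if_pos hne]
        exact mem_nset.2 h
      have hinj : Function.Injective (fun i => π (v i)) := by
        intro i i' h
        by_contra hne
        apply hinj0 i i' hne
        have h' : π (v i) = π (v i') := h
        rw [← hf, ← hf, h']
      have hbig : ∀ i, s ≤ (fib π (π (v i))).card := by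
        intro i
        by_contra hcon
        push Not at hcon
        apply hv2
        rw [hB2, mem_biUnion]
        refine ⟨i, mem_univ _, mem_filter.2 ⟨mem_univ _, ?_⟩⟩
        have : ((fib π (π (v i))).card : ℝ) < s := by exact_mod_cast hcon
        exact lt_of_lt_of_le this hsσ
      obtain ⟨w, hw, hE⟩ := hconn (fun i => fib π (π (v i))) (by
        intro i i' hne
        rw [Finset.disjoint_left]
        intro x hx hx'
        rw [mem_fib] at hx hx'
        exact hne (hinj (hx.symm.trans hx'))) hbig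
      set j := c (univ.image w) with hj
      refine ⟨j, hy3 j _ hinj ?_⟩
      by_contra hc
      apply hv3
      rw [hB3, mem_biUnion]
      refine ⟨j, mem_univ _, ?_⟩
      unfold uset
      rw [mem_filter]
      refine ⟨mem_univ _, ?_, hc⟩
      intro hemp
      exact hemp w hw ⟨hE, rfl⟩)
    (m j0) hj0 hμ1
  -- conclusion
  have h1ε : 0 < 1 - ε := by linarith
  have hKr : (Fintype.card κ : ℝ) ^ r ≤ (K : ℝ) ^ r := pow_le_pow_left₀ (by positivity) hκR r
  have hmj : ∀ j, (1 - ε) * (m j * n) ≤ t j - 1 + (K : ℝ) ^ r := by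
    intro j
    rw [← hmn]
    have := hy2 j
    linarith
  have h1 : (1 - ε) * n * 1 ≤ (1 - ε) * n * (((r : ℝ) - 1) * m j0 + ∑ j, m j + ε) :=
    mul_le_mul_of_nonneg_left hmain (by positivity)
  have h2 : (1 - ε) * n * (((r : ℝ) - 1) * m j0 + ∑ j, m j + ε) =
      (r - 1) * ((1 - ε) * (m j0 * n)) + ∑ j, (1 - ε) * (m j * n) + (1 - ε) * n * ε := by
    rw [mul_add, mul_add, mul_sum]
    congr 2
    · ring
    · apply sum_congr rfl
      intro j _
      ring
  have h3 : ((r : ℝ) - 1) * ((1 - ε) * (m j0 * n)) ≤ (r - 1) * (τ - 1 + (K : ℝ) ^ r) := by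
    apply mul_le_mul_of_nonneg_left _ (by linarith)
    have := hmj j0
    have h4 : (t j0 : ℝ) ≤ τ := by exact_mod_cast htτ j0
    linarith
  have h4 : ∑ j, (1 - ε) * (m j * n) ≤ ∑ j, ((t j : ℝ) - 1) + q * (K : ℝ) ^ r := by
    calc ∑ j, (1 - ε) * (m j * n) ≤ ∑ j, ((t j : ℝ) - 1 + (K : ℝ) ^ r) :=
          sum_le_sum (fun j _ => hmj j)
      _ = _ := by rw [sum_add_distrib]; simp
  have h5 : (1 - ε) * n * ε ≤ n * ε := by
    have : (1 - ε) * n * ε = n * ε - n * ε * ε := by ring
    have : 0 ≤ n * ε * ε := by positivity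
    linarith
  have h6 : (r + q) * (K : ℝ) ^ r ≤ ε * n := by
    have h8 : 0 ≤ 4 * (r : ℝ) ^ 2 / η := by positivity
    have : (r + q) * (K : ℝ) ^ r / ε ≤ n := by linarith
    rw [div_le_iff₀ hε] at this
    linarith
  have h7 : ((r : ℝ) - 1) * (τ - 1 + (K : ℝ) ^ r) + q * (K : ℝ) ^ r ≤
      (r - 1) * τ + (r + q) * (K : ℝ) ^ r := by
    have : 0 ≤ (K : ℝ) ^ r := by positivity
    nlinarith
  have h8 : n * (4 * ε) ≤ n * ε0 := mul_le_mul_of_nonneg_left (by linarith) hn0'
  nlinarith

end Pool.Agent.Q294.SC
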