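import Pool.Agent.Q294.SC.Reg
import Pool.Agent.H249R2.PM.Farkas

/-!
# Greedy matchings between the parts and fractional covers
-/

set_option autoImplicit false

namespace Pool.Agent.Q294.SC

open Finset

section

variable {V κ : Type} [Fintype V] [DecidableEq V] {r : ℕ}

open Classical in
/-- greedy matching -/
theorem greedy (hr : 1 ≤ r) {P : Finset V → Prop} {ε : ℝ} (π : V → κ)
    (m : Multiset (Fin r → κ)) : (∀ a ∈ m, Function.Injective a) →
    (∀ a ∈ m, Conn P ε (fun i => fib π (a i))) →
    (∀ l, ((m.countP (fun a => ∃ i, a i = l) : ℕ) : ℝ) ≤ (1 - ε) * (fib π l).card) →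
    ∃ M : Finset (Finset V), M.card = m.card ∧ (∀ e ∈ M, P e) ∧
      (∀ e ∈ M, ∀ f ∈ M, e ≠ f → Disjoint e f) ∧
      ∀ l, ((M.biUnion id) ∩ fib π l).card ≤ m.countP (fun a => ∃ i, a i = l) := by
  induction m using Multiset.induction_on with
  | empty =>
    intro _ _ _
    exact ⟨∅, by simp, by simp, by simp, by simp⟩
  | cons a m ih =>
    intro hinj hconn hcap
    obtain ⟨M, hMc, hMP, hMd, hMl⟩ := ih (fun b hb => hinj b (Multiset.mem_cons_of_mem hb))
      (fun b hb => hconn b (Multiset.mem_cons_of_mem hb)) (fun l => by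
        refine le_trans ?_ (hcap l)
        exact_mod_cast Multiset.countP_le_of_le _ (Multiset.le_cons_self m a))
    have ha : Function.Injective a := hinj a (Multiset.mem_cons_self a m)
    set U := M.biUnion id with hU
    have hB : ∀ i, ε * ((fib π (a i)).card : ℝ) ≤ ((fib π (a i) \ U).card : ℝ) := by
      intro i
      have h1 := hcap (a i)
      rw [Multiset.countP_cons_of_pos (p := fun b : Fin r → κ => ∃ i', b i' = a i) m ⟨i, rfl⟩] at h1
      have h2 := hMl (a i)
      have h3 := card_sdiff_add_card_inter (fib π (a i)) U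
      rw [inter_comm] at h3
      have h4 : ((fib π (a i) \ U).card : ℝ) + ((U ∩ fib π (a i)).card : ℝ) =
          (fib π (a i)).card := by exact_mod_cast h3
      have h5 : ((U ∩ fib π (a i)).card : ℝ) ≤
          (m.countP (fun b : Fin r → κ => ∃ i', b i' = a i) : ℕ) := by exact_mod_cast h2
      push_cast at h1
      linarith
    have hne := hconn a (Multiset.mem_cons_self a m) (fun i => fib π (a i) \ U)
      (fun i => sdiff_subset) hB
    unfold Emp at hne
    push Not at hne
    obtain ⟨v, hv, hP⟩ := hne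
    set e := univ.image v with he
    have heU : Disjoint e U := by
      rw [Finset.disjoint_left]
      intro x hx hxU
      obtain ⟨i, _, rfl⟩ := mem_image.1 hx
      exact (mem_sdiff.1 (hv i)).2 hxU
    have heM : e ∉ M := by
      intro h
      have hx : v ⟨0, hr⟩ ∈ e := mem_image_of_mem _ (mem_univ _)
      exact (Finset.disjoint_left.1 heU hx) (mem_biUnion.2 ⟨e, h, hx⟩)
    have hdis : ∀ f ∈ M, Disjoint e f := by
      intro f hf
      exact Finset.disjoint_of_subset_right (fun x hx => mem_biUnion.2 ⟨f, hf, hx⟩) heU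
    refine ⟨insert e M, ?_, ?_, ?_, ?_⟩
    · rw [card_insert_of_notMem heM, hMc, Multiset.card_cons]
    · intro f hf
      rcases mem_insert.1 hf with rfl | h
      · exact hP
      · exact hMP f h
    · intro f hf g hg hne
      rcases mem_insert.1 hf with h1 | h1 <;> rcases mem_insert.1 hg with h2 | h2
      · exact absurd (h1.trans h2.symm) hne
      · rw [h1]; exact hdis g h2
      · rw [h2]; exact (hdis f h1).symm
      · exact hMd f h1 g h2 hne
    · intro l
      have h1 : (insert e M).biUnion id ∩ fib π l ⊆ (e ∩ fib π l) ∪ (U ∩ fib π l) := by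
        intro x hx
        rw [mem_inter, mem_biUnion] at hx
        obtain ⟨⟨f, hf, hxf⟩, hxl⟩ := hx
        rcases mem_insert.1 hf with h | h
        · subst h
          exact mem_union_left _ (mem_inter.2 ⟨hxf, hxl⟩)
        · exact mem_union_right _ (mem_inter.2 ⟨mem_biUnion.2 ⟨f, h, hxf⟩, hxl⟩)
      have h2 := (card_le_card h1).trans (card_union_le _ _)
      have h3 := hMl l
      have h4 : (e ∩ fib π l).card ≤ if (∃ i, a i = l) then 1 else 0 := by
        split_ifs with h
        · obtain ⟨i, hi⟩ := h
          have : e ∩ fib π l ⊆ {v i} := by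
            intro x hx
            rw [mem_inter] at hx
            obtain ⟨i', _, rfl⟩ := mem_image.1 hx.1
            have h5 : π (v i') = l := mem_fib.1 hx.2
            have h6 : π (v i') = a i' := mem_fib.1 (mem_sdiff.1 (hv i')).1
            have h7 : i' = i := ha (by rw [← h6, h5, hi])
            rw [h7]
            exact mem_singleton_self _
          exact (card_le_card this).trans (by simp)
        · rw [Nat.le_zero, card_eq_zero, Finset.eq_empty_iff_forall_notMem]
          intro x hx
          rw [mem_inter] at hx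
          obtain ⟨i', _, rfl⟩ := mem_image.1 hx.1
          have h5 : π (v i') = l := mem_fib.1 hx.2
          have h6 : π (v i') = a i' := mem_fib.1 (mem_sdiff.1 (hv i')).1
          exact h ⟨i', by rw [← h6, h5]⟩
      rw [Multiset.countP_cons]
      omega

open Classical in
/-- LP duality -/
theorem dual [Fintype κ] (T : Finset (Fin r → κ)) (w : κ → ℝ) (hw : ∀ l, 0 ≤ w l) (τ : ℝ)
    (h : ∀ x : (Fin r → κ) → ℝ, (∀ a, 0 ≤ x a) →
      (∀ l, ∑ a ∈ T, ∑ i, (if a i = l then x a else 0) ≤ w l) → ∑ a ∈ T, x a ≤ τ) :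
    ∃ y : κ → ℝ, (∀ l, 0 ≤ y l) ∧ ∑ l, y l * w l ≤ τ ∧ ∀ a ∈ T, 1 ≤ ∑ i, y (a i) := by
  let ℓ : κ ⊕ (Fin r → κ) → (((Fin r → κ) → ℝ) →ₗ[ℝ] ℝ) := fun s => match s with
    | Sum.inl l => ∑ a ∈ T, ∑ i, (if a i = l then LinearMap.proj a else 0)
    | Sum.inr a => - LinearMap.proj a
  let b : κ ⊕ (Fin r → κ) → ℝ := fun s => match s with
    | Sum.inl l => w l
    | Sum.inr _ => 0
  have hl : ∀ l x, ℓ (Sum.inl l) x = ∑ a ∈ T, ∑ i, (if a i = l then x a else 0) := by
    intro l x
    simp only [ℓ, LinearMap.sum_apply]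
    apply sum_congr rfl
    intro a _
    apply sum_congr rfl
    intro i _
    split_ifs <;> simp
  have hr : ∀ a x, ℓ (Sum.inr a) x = - x a := by
    intro a x
    simp [ℓ]
  let f : ((Fin r → κ) → ℝ) →ₗ[ℝ] ℝ := ∑ a ∈ T, LinearMap.proj a
  have hf : ∀ x, f x = ∑ a ∈ T, x a := by
    intro x
    simp [f]
  obtain ⟨w0, u, hw0, hu, hid⟩ := Pool.Agent.H249R2.PM.farkas_fin ℓ b f τ 0 (by
    intro i
    rw [map_zero]
    rcases i with l | a
    · exact hw l
    · exact le_rfl) (by
    intro x hx
    rw [hf]
    apply h x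
    · intro a
      have := hx (Sum.inr a)
      rw [hr] at this
      simp only [b] at this
      linarith
    · intro l
      have := hx (Sum.inl l)
      rw [hl] at this
      exact this)
  refine ⟨fun l => u (Sum.inl l), fun l => hu _, ?_, ?_⟩
  · have h0 := hid 0
    simp only [map_zero, sub_zero, Fintype.sum_sum_type, b, mul_zero, sum_const_zero,
      add_zero] at h0
    linarith
  · intro a ha
    have h0 := hid 0
    have h1 := hid (Pi.single a 1)
    simp only [map_zero, sub_zero, Fintype.sum_sum_type, b, mul_zero, sum_const_zero,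
      add_zero] at h0
    rw [Fintype.sum_sum_type, hf] at h1
    simp only [hl, hr, b, Pi.single_apply] at h1
    have e1 : ∑ x ∈ T, (if x = a then (1 : ℝ) else 0) = 1 := by
      rw [sum_ite_eq' T a]; simp [ha]
    have e2 : ∀ l, ∑ a' ∈ T, ∑ i, (if a' i = l then (if a' = a then (1 : ℝ) else 0) else 0) =
        ∑ i, (if a i = l then (1 : ℝ) else 0) := by
      intro l
      rw [sum_eq_single a]
      · simp
      · intro a' _ hne
        simp [hne]
      · intro h; exact absurd ha h
    have e3 : ∑ x : Fin r → κ, u (Sum.inr x) * (0 - -(if x = a then (1 : ℝ) else 0)) =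
        u (Sum.inr a) := by
      rw [sum_eq_single a]
      · simp
      · intro a' _ hne
        simp [hne]
      · intro h; exact absurd (mem_univ _) h
    rw [e1, e3] at h1
    simp only [e2] at h1
    have e4 : ∑ l, u (Sum.inl l) * (w l - ∑ i, (if a i = l then (1 : ℝ) else 0)) =
        ∑ l, u (Sum.inl l) * w l - ∑ i, u (Sum.inl (a i)) := by
      simp only [mul_sub, sum_sub_distrib, mul_sum]
      congr 1
      rw [sum_comm]
      apply sum_congr rfl
      intro i _
      simp
    rw [e4] at h1
    have := hu (Sum.inr a)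
    linarith

open Classical in
/-- If there are no `t` disjoint edges there is a small fractional cover of the connected tuples of
parts. -/
theorem exists_cover [Fintype κ] (hr : 1 ≤ r) {P : Finset V → Prop} {ε : ℝ} (hε : 0 ≤ ε)
    (hε1 : ε < 1) (π : V → κ) {t : ℕ} (ht : 1 ≤ t)
    (hno : ¬ ∃ M : Finset (Finset V), M.card = t ∧ (∀ e ∈ M, P e) ∧
      (∀ e ∈ M, ∀ f ∈ M, e ≠ f → Disjoint e f)) :
    ∃ y : κ → ℝ, (∀ l, 0 ≤ y l) ∧ (∀ l, y l ≤ 1) ∧
      (1 - ε) * ∑ v, y (π v) ≤ t - 1 + (Fintype.card κ : ℝ) ^ r ∧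
      ∀ a : Fin r → κ, Function.Injective a → Conn P ε (fun i => fib π (a i)) →
        1 ≤ ∑ i, y (a i) := by
  set T : Finset (Fin r → κ) := univ.filter (fun a => Function.Injective a ∧
    Conn P ε (fun i => fib π (a i))) with hT
  have h1ε : 0 < 1 - ε := by linarith
  obtain ⟨y, hy0, hy1, hy2⟩ := dual T (fun l => ((fib π l).card : ℝ)) (fun l => by positivity)
    ((t - 1 + (Fintype.card κ : ℝ) ^ r) / (1 - ε)) (by
    intro x hx0 hx
    rw [le_div_iff₀ h1ε]
    set N : (Fin r → κ) → ℕ := fun a => ⌊(1 - ε) * x a⌋₊ with hN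
    set m : Multiset (Fin r → κ) := ∑ a ∈ T, N a • ({a} : Multiset (Fin r → κ)) with hm
    have hmem : ∀ a ∈ m, a ∈ T := by
      intro a ha
      rw [hm, Multiset.mem_sum] at ha
      obtain ⟨b, hb, hab⟩ := ha
      rw [Multiset.mem_nsmul, Multiset.mem_singleton] at hab
      rw [hab.2]; exact hb
    have hcount : ∀ l, m.countP (fun a => ∃ i, a i = l) =
        ∑ a ∈ T, N a * (if ∃ i, a i = l then 1 else 0) := by
      intro l
      have h1 := map_sum (Multiset.countPAddMonoidHom (fun a : Fin r → κ => ∃ i, a i = l))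
        (fun a => N a • ({a} : Multiset (Fin r → κ))) T
      rw [Multiset.coe_countPAddMonoidHom] at h1
      rw [hm, h1]
      apply sum_congr rfl
      intro a _
      rw [Multiset.countP_nsmul]
      congr 1
      rw [← Multiset.cons_zero, Multiset.countP_cons]
      simp
    have hcard : m.card = ∑ a ∈ T, N a := by
      rw [hm, Multiset.card_sum]
      apply sum_congr rfl
      intro a _
      rw [Multiset.card_nsmul, Multiset.card_singleton, mul_one]
    obtain ⟨M, hM1, hM2, hM3, -⟩ := greedy hr (P := P) (ε := ε) π m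
      (fun a ha => (mem_filter.1 (hmem a ha)).2.1)
      (fun a ha => (mem_filter.1 (hmem a ha)).2.2) (by
        intro l
        rw [hcount]
        push_cast
        calc ∑ a ∈ T, (N a : ℝ) * (if ∃ i, a i = l then 1 else 0)
            ≤ ∑ a ∈ T, (1 - ε) * ∑ i, (if a i = l then x a else 0) := by
              apply sum_le_sum
              intro a _
              have h2 : (N a : ℝ) ≤ (1 - ε) * x a :=
                Nat.floor_le (mul_nonneg h1ε.le (hx0 a))
              split_ifs with h
              · obtain ⟨i, hi⟩ := h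
                have h3 : x a ≤ ∑ i, (if a i = l then x a else 0) := by
                  calc x a = (if a i = l then x a else 0) := by rw [if_pos hi]
                    _ ≤ _ := single_le_sum (f := fun i => if a i = l then x a else 0)
                      (fun i _ => by split_ifs; exacts [hx0 a, le_rfl]) (mem_univ i)
                rw [mul_one]
                exact h2.trans (mul_le_mul_of_nonneg_left h3 h1ε.le)
              · rw [mul_zero]
                exact mul_nonneg h1ε.le (sum_nonneg (fun i _ => by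
                  split_ifs; exacts [hx0 a, le_rfl]))
          _ = (1 - ε) * ∑ a ∈ T, ∑ i, (if a i = l then x a else 0) := by rw [mul_sum]
          _ ≤ (1 - ε) * (fib π l).card := mul_le_mul_of_nonneg_left (hx l) h1ε.le)
    have hlt : M.card < t := by
      by_contra hcon
      push Not at hcon
      obtain ⟨M', hM', hM'c⟩ := exists_subset_card_eq hcon
      exact hno ⟨M', hM'c, fun e he => hM2 e (hM' he), fun e he f hf =>
        hM3 e (hM' he) f (hM' hf)⟩
    rw [hM1, hcard] at hlt
    have h5 : (∑ a ∈ T, (N a : ℝ)) ≤ t - 1 := by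
      have : ∑ a ∈ T, N a + 1 ≤ t := hlt
      have h6 : ((∑ a ∈ T, N a + 1 : ℕ) : ℝ) ≤ t := by exact_mod_cast this
      push_cast at h6
      linarith
    calc (∑ a ∈ T, x a) * (1 - ε) = ∑ a ∈ T, (1 - ε) * x a := by rw [← mul_sum, mul_comm]
      _ ≤ ∑ a ∈ T, ((N a : ℝ) + 1) := sum_le_sum (fun a _ => (Nat.lt_floor_add_one _).le)
      _ = ∑ a ∈ T, (N a : ℝ) + T.card := by rw [sum_add_distrib]; simp
      _ ≤ t - 1 + (Fintype.card κ : ℝ) ^ r := by
          have h7 : (T.card : ℝ) ≤ (Fintype.card κ : ℝ) ^ r := by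
            have := card_le_univ T
            rw [Fintype.card_fun, Fintype.card_fin] at this
            exact_mod_cast this
          linarith)
  refine ⟨fun l => min (y l) 1, fun l => le_min (hy0 l) zero_le_one, fun l => min_le_right _ _,
    ?_, ?_⟩
  · have h1 : ∑ v, min (y (π v)) 1 ≤ ∑ l, y l * (fib π l).card := by
      calc ∑ v, min (y (π v)) 1 ≤ ∑ v, y (π v) := sum_le_sum (fun v _ => min_le_left _ _)
        _ = ∑ l, ∑ v ∈ univ.filter (fun v => π v = l), y (π v) :=
            (sum_fiberwise univ π (fun v => y (π v))).symm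
        _ = ∑ l, y l * (fib π l).card := by
            apply sum_congr rfl
            intro l _
            rw [sum_congr rfl (g := fun _ => y l) (fun v hv => by rw [(mem_filter.1 hv).2]),
              sum_const, nsmul_eq_mul, mul_comm]
            congr 2
    have h2 := h1.trans hy1
    rw [le_div_iff₀ h1ε] at h2
    linarith
  · intro a ha hc
    have h1 := hy2 a (mem_filter.2 ⟨mem_univ _, ha, hc⟩)
    by_cases h : ∃ i, 1 ≤ y (a i)
    · obtain ⟨i, hi⟩ := h
      calc (1 : ℝ) = min (y (a i)) 1 := by rw [min_eq_right hi]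
        _ ≤ ∑ i, min (y (a i)) 1 := single_le_sum (f := fun i => min (y (a i)) 1)
          (fun i _ => le_min (hy0 _) zero_le_one) (mem_univ i)
    · push Not at h
      rw [sum_congr rfl (fun i _ => min_eq_left (h i).le)]
      exact h1

end

end Pool.Agent.Q294.SC
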