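import Mathlib

/-!
# A regularity lemma for connectors
-/

set_option autoImplicit false

namespace Pool.Agent.Q294.SC

open Finset

section

variable {V κ : Type} [Fintype V] [DecidableEq V] {r q : ℕ}

open Classical in
/-- the part with label `l` -/
noncomputable def fib (π : V → κ) (l : κ) : Finset V := univ.filter (fun v => π v = l)

theorem mem_fib {π : V → κ} {l : κ} {v : V} : v ∈ fib π l ↔ π v = l := by
  simp [fib]

/-- no edge goes across the sets `A i` -/
def Emp (P : Finset V → Prop) (A : Fin r → Finset V) : Prop :=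
  ∀ v : Fin r → V, (∀ i, v i ∈ A i) → ¬ P (univ.image v)

/-- edges go across all the large subsets of the sets `A i` -/
def Conn (P : Finset V → Prop) (ε : ℝ) (A : Fin r → Finset V) : Prop :=
  ∀ B : Fin r → Finset V, (∀ i, B i ⊆ A i) → (∀ i, ε * (A i).card ≤ (B i).card) → ¬ Emp P B

/-- undecided tuple of labels -/
def Und (P : Finset V → Prop) (ε : ℝ) (π : V → κ) (a : Fin r → κ) : Prop :=
  ¬ Emp P (fun i => fib π (a i)) ∧ ¬ Conn P ε (fun i => fib π (a i))

open Classical in
/-- tuples of vertices in empty tuples of parts -/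
noncomputable def eset (r : ℕ) (P : Finset V → Prop) (π : V → κ) : Finset (Fin r → V) :=
  univ.filter (fun v => Emp P (fun i => fib π (π (v i))))

open Classical in
/-- tuples of vertices in undecided tuples of parts -/
noncomputable def uset (r : ℕ) (P : Finset V → Prop) (ε : ℝ) (π : V → κ) : Finset (Fin r → V) :=
  univ.filter (fun v => Und P ε π (fun i => π (v i)))

theorem Emp.mono {P : Finset V → Prop} {A B : Fin r → Finset V} (h : Emp P A)
    (hBA : ∀ i, B i ⊆ A i) : Emp P B := fun v hv => h v (fun i => hBA i (hv i))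

open Classical in
/-- counting tuples through their labels -/
theorem card_by_labels [Fintype κ] (π : V → κ) (T : (Fin r → κ) → Prop)
    (B : (Fin r → κ) → Fin r → Finset V) (hB : ∀ a i, T a → B a i ⊆ fib π (a i)) :
    (univ.filter (fun v : Fin r → V => T (fun i => π (v i)) ∧
      ∀ i, v i ∈ B (fun i => π (v i)) i)).card =
    ∑ a ∈ univ.filter T, ∏ i, (B a i).card := by
  rw [card_eq_sum_card_fiberwise (f := fun v : Fin r → V => fun i => π (v i))
    (t := univ.filter T)]
  · apply sum_congr rfl
    intro a ha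
    rw [mem_filter] at ha
    rw [← Fintype.card_piFinset]
    congr 1
    ext v
    simp only [mem_filter, mem_univ, true_and, Fintype.mem_piFinset]
    constructor
    · rintro ⟨⟨_, h2⟩, h3⟩
      rw [h3] at h2
      exact h2
    · intro h
      have h3 : (fun i => π (v i)) = a := by
        funext i
        exact mem_fib.1 (hB a i ha.2 (h i))
      rw [h3]
      exact ⟨⟨ha.2, h⟩, rfl⟩
  · intro v hv
    simp only [coe_filter, mem_univ, true_and, Set.mem_ofPred_eq] at hv ⊢
    exact hv.1

open Classical in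
/-- one step of the refinement -/
theorem refine_step [Fintype κ] (P : Fin q → Finset V → Prop) {ε : ℝ} (hε : 0 ≤ ε) (π : V → κ) :
    ∃ π' : V → κ × (Fin q × (Fin r → κ) × Fin r → Bool), (∀ v, (π' v).1 = π v) ∧
      ∀ j, ((eset r (P j) π).card : ℝ) + ε ^ r * (uset r (P j) ε π).card ≤
        (eset r (P j) π').card := by
  -- witnesses
  have hw : ∀ j (a : Fin r → κ), ∃ B : Fin r → Finset V, Und (P j) ε π a →
      (∀ i, B i ⊆ fib π (a i)) ∧ (∀ i, ε * (fib π (a i)).card ≤ (B i).card) ∧ Emp (P j) B := by
    intro j a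
    by_cases h : Und (P j) ε π a
    · have h2 := h.2
      unfold Conn at h2
      push Not at h2
      obtain ⟨B, h3, h4, h5⟩ := h2
      exact ⟨B, fun _ => ⟨h3, h4, h5⟩⟩
    · exact ⟨fun _ => ∅, fun h' => absurd h' h⟩
  choose B hB using hw
  refine ⟨fun v => (π v, fun x => decide (v ∈ B x.1 x.2.1 x.2.2)), fun v => rfl, ?_⟩
  intro j
  set π' : V → κ × (Fin q × (Fin r → κ) × Fin r → Bool) :=
    fun v => (π v, fun x => decide (v ∈ B x.1 x.2.1 x.2.2)) with hπ'
  have hsub : ∀ v, fib π' (π' v) ⊆ fib π (π v) := by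
    intro v w hw
    rw [mem_fib] at hw ⊢
    exact congrArg Prod.fst hw
  set S : Finset (Fin r → V) := univ.filter (fun v : Fin r → V =>
    Und (P j) ε π (fun i => π (v i)) ∧ ∀ i, v i ∈ B j (fun i => π (v i)) i) with hS
  have hdisj : Disjoint (eset r (P j) π) S := by
    rw [Finset.disjoint_left]
    intro v h1 h2
    simp only [eset, hS, mem_filter, mem_univ, true_and] at h1 h2
    exact h2.1.1 h1
  have hsubset : eset r (P j) π ∪ S ⊆ eset r (P j) π' := by
    intro v hv
    simp only [eset, mem_filter, mem_univ, true_and]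
    rcases mem_union.1 hv with h | h
    · simp only [eset, mem_filter, mem_univ, true_and] at h
      exact h.mono (fun i => hsub (v i))
    · simp only [hS, mem_filter, mem_univ, true_and] at h
      refine (hB j _ h.1).2.2.mono ?_
      intro i w hw
      rw [mem_fib] at hw
      have h3 := congrFun (congrArg Prod.snd hw) (j, (fun i => π (v i)), i)
      simp only [hπ'] at h3
      have h4 := h.2 i
      rw [decide_eq_decide] at h3
      exact h3.2 h4
  have hcard := card_le_card hsubset
  rw [card_union_of_disjoint hdisj] at hcard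
  have hSc : ε ^ r * ((uset r (P j) ε π).card : ℝ) ≤ S.card := by
    have e1 : S.card = ∑ a ∈ (univ : Finset (Fin r → κ)).filter (Und (P j) ε π),
        ∏ i, (B j a i).card := by
      rw [hS]
      exact card_by_labels π (Und (P j) ε π) (B j) (fun a i ha => (hB j a ha).1 i)
    have e2 : (uset r (P j) ε π).card =
        ∑ a ∈ (univ : Finset (Fin r → κ)).filter (Und (P j) ε π),
          ∏ i, (fib π (a i)).card := by
      rw [← card_by_labels π (Und (P j) ε π) (fun a i => fib π (a i)) (fun a i _ => subset_rfl)]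
      unfold uset
      congr 1
      ext v
      simp only [mem_filter, mem_univ, true_and]
      constructor
      · intro h
        exact ⟨h, fun i => mem_fib.2 rfl⟩
      · intro h
        exact h.1
    rw [e1, e2]
    push_cast
    rw [mul_sum]
    apply sum_le_sum
    intro a ha
    rw [mem_filter] at ha
    have h1 := (hB j a ha.2).2.1
    calc ε ^ r * ∏ i, ((fib π (a i)).card : ℝ) = ∏ i, (ε * (fib π (a i)).card) := by
          rw [prod_mul_distrib]; simp
      _ ≤ ∏ i, ((B j a i).card : ℝ) :=
          prod_le_prod (fun i _ => by positivity) (fun i _ => h1 i)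
  have hcard' : ((eset r (P j) π).card : ℝ) + S.card ≤ (eset r (P j) π').card := by
    exact_mod_cast hcard
  linarith

open Classical in
/-- **Connector regularity lemma**, with a potential. -/
theorem regularity_aux (q r : ℕ) {ε η : ℝ} (hε : 0 < ε) (hη : 0 < η) : ∀ m K0 : ℕ, ∃ K : ℕ,
    ∀ (V : Type) [Fintype V] [DecidableEq V] [Nonempty V] (P : Fin q → Finset V → Prop)
      (κ0 : Type) [Fintype κ0] (π0 : V → κ0), Fintype.card κ0 ≤ K0 →
      ((q : ℝ) - m * (ε ^ r * η)) * (Fintype.card V : ℝ) ^ r ≤
        ∑ j, ((eset r (P j) π0).card : ℝ) →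
      ∃ (κ : Type) (_ : Fintype κ) (π : V → κ) (f : κ → κ0), (∀ v, f (π v) = π0 v) ∧
        Fintype.card κ ≤ K ∧
        ∑ j, ((uset r (P j) ε π).card : ℝ) ≤ η * (Fintype.card V : ℝ) ^ r := by
  intro m
  induction m with
  | zero =>
    intro K0
    refine ⟨K0, ?_⟩
    intro V _ _ _ P κ0 _ π0 hκ hD
    refine ⟨κ0, inferInstance, π0, id, fun _ => rfl, hκ, ?_⟩
    by_contra hcon
    push Not at hcon
    obtain ⟨π', h1, h2⟩ := refine_step (r := r) P hε.le π0
    have h3 : ∑ j, (((eset r (P j) π0).card : ℝ) + ε ^ r * (uset r (P j) ε π0).card) ≤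
        ∑ j : Fin q, ((Fintype.card V : ℝ) ^ r) := by
      apply sum_le_sum
      intro j _
      refine (h2 j).trans ?_
      have : (eset r (P j) π').card ≤ (univ : Finset (Fin r → V)).card := card_le_univ _
      rw [card_univ, Fintype.card_fun, Fintype.card_fin] at this
      exact_mod_cast this
    rw [sum_add_distrib, ← mul_sum, sum_const, card_univ, Fintype.card_fin, nsmul_eq_mul] at h3
    have h4 : (0 : ℝ) < ε ^ r := by positivity
    have h5 : 0 < η * (Fintype.card V : ℝ) ^ r := by
      have : (0 : ℝ) < Fintype.card V := by exact_mod_cast Fintype.card_pos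
      positivity
    have h6 := mul_lt_mul_of_pos_left hcon h4
    have h7 := mul_pos h4 h5
    simp only [Nat.cast_zero, zero_mul, sub_zero] at hD
    linarith
  | succ m ih =>
    intro K0
    obtain ⟨K, hK⟩ := ih (K0 * 2 ^ (q * (K0 ^ r * r)))
    refine ⟨max K0 K, ?_⟩
    intro V _ _ _ P κ0 _ π0 hκ hD
    by_cases hcon : ∑ j, ((uset r (P j) ε π0).card : ℝ) ≤ η * (Fintype.card V : ℝ) ^ r
    · exact ⟨κ0, inferInstance, π0, id, fun _ => rfl, hκ.trans (le_max_left _ _), hcon⟩
    · push Not at hcon
      obtain ⟨π', h1, h2⟩ := refine_step (r := r) P hε.le π0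
      have hcard : Fintype.card (κ0 × (Fin q × (Fin r → κ0) × Fin r → Bool)) ≤
          K0 * 2 ^ (q * (K0 ^ r * r)) := by
        rw [Fintype.card_prod, Fintype.card_fun, Fintype.card_prod, Fintype.card_prod,
          Fintype.card_fun, Fintype.card_fin, Fintype.card_fin, Fintype.card_bool]
        apply Nat.mul_le_mul hκ
        apply Nat.pow_le_pow_right (by norm_num)
        apply Nat.mul_le_mul_left
        apply Nat.mul_le_mul_right
        exact Nat.pow_le_pow_left hκ r
      obtain ⟨κ, hκf, π, f, hf, hκc, hu⟩ := hK V P _ π' hcard (by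
        have h3 : ∑ j, (((eset r (P j) π0).card : ℝ) + ε ^ r * (uset r (P j) ε π0).card) ≤
            ∑ j, ((eset r (P j) π').card : ℝ) := sum_le_sum (fun j _ => h2 j)
        rw [sum_add_distrib, ← mul_sum] at h3
        have h4 : (0 : ℝ) < ε ^ r := by positivity
        have h6 := mul_lt_mul_of_pos_left hcon h4
        push_cast at hD
        nlinarith)
      refine ⟨κ, hκf, π, fun l => (f l).1, ?_, hκc.trans (le_max_right _ _), hu⟩
      intro v
      show (f (π v)).1 = π0 v
      rw [hf, h1]

/-- **Connector regularity lemma**: for every initial partition into at most `K0` parts there is a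
refinement into at most `K` parts in which the undecided tuples are rare. -/
theorem regularity (q r K0 : ℕ) {ε η : ℝ} (hε : 0 < ε) (hη : 0 < η) : ∃ K : ℕ,
    ∀ (V : Type) [Fintype V] [DecidableEq V] [Nonempty V] (P : Fin q → Finset V → Prop)
      (κ0 : Type) [Fintype κ0] (π0 : V → κ0), Fintype.card κ0 ≤ K0 →
      ∃ (κ : Type) (_ : Fintype κ) (π : V → κ) (f : κ → κ0), (∀ v, f (π v) = π0 v) ∧
        Fintype.card κ ≤ K ∧
        ∑ j, ((uset r (P j) ε π).card : ℝ) ≤ η * (Fintype.card V : ℝ) ^ r := by
  obtain ⟨m, hm⟩ := exists_nat_ge ((q : ℝ) / (ε ^ r * η))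
  obtain ⟨K, hK⟩ := regularity_aux q r hε hη m K0
  refine ⟨K, ?_⟩
  intro V _ _ _ P κ0 _ π0 h
  refine hK V P κ0 π0 h ?_
  have h1 : (q : ℝ) - m * (ε ^ r * η) ≤ 0 := by
    rw [div_le_iff₀ (by positivity)] at hm
    linarith
  have h2 : ((q : ℝ) - m * (ε ^ r * η)) * (Fintype.card V : ℝ) ^ r ≤ 0 :=
    mul_nonpos_of_nonpos_of_nonneg h1 (by positivity)
  refine h2.trans (sum_nonneg (fun j _ => by positivity))

end

end Pool.Agent.Q294.SC
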